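import Mathlib

set_option autoImplicit false

/-!
Alternating forms under elementary symplectic operations on a list of pairs.
-/

namespace Pool.Agent.Helper4.SLC.Comb

variable {V : Type*} [AddCommGroup V]

/-- elementary operations on a list of pairs -/
inductive Op : List (V × V) → List (V × V) → Prop
  | perm {l l' : List (V × V)} (h : l.Perm l') : Op l l'
  | t1 (x : ℤ) (a b : V) (l : List (V × V)) : Op ((a, b) :: l) ((a, b + x • a) :: l)
  | s (a b : V) (l : List (V × V)) : Op ((a, b) :: l) ((b, -a) :: l)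
  | t3 (x : ℤ) (a b c d : V) (l : List (V × V)) :
      Op ((a, b) :: (c, d) :: l) ((a, b + x • c) :: (c, d + x • a) :: l)

/-- reachable lists -/
abbrev Rch (l l' : List (V × V)) : Prop := Relation.ReflTransGen Op l l'

theorem Op.symm {l l' : List (V × V)} (h : Op l l') : Rch l' l := by
  cases h with
  | perm h => exact Relation.ReflTransGen.single (.perm h.symm)
  | t1 x a b l =>
    have h1 := Op.t1 (-x) a (b + x • a) l
    rw [neg_smul, add_neg_cancel_right] at h1
    exact Relation.ReflTransGen.single h1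
  | s a b l =>
    have h1 := Op.s b (-a) l
    have h2 := Op.s (-a) (-b) l
    have h3 := Op.s (-b) (- -a) l
    rw [neg_neg, neg_neg] at h3
    rw [neg_neg] at h2
    exact ((Relation.ReflTransGen.single h1).tail h2).tail h3
  | t3 x a b c d l =>
    have h1 := Op.t3 (-x) a (b + x • c) c (d + x • a) l
    rw [neg_smul, neg_smul, add_neg_cancel_right, add_neg_cancel_right] at h1
    exact Relation.ReflTransGen.single h1

theorem Rch.symm {l l' : List (V × V)} (h : Rch l l') : Rch l' l := by
  induction h with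
  | refl => exact Relation.ReflTransGen.refl
  | tail _ h ih => exact h.symm.trans ih

theorem rp {l0 l l' : List (V × V)} (h : Rch l0 l) (hp : l.Perm l') : Rch l0 l' :=
  h.tail (.perm hp)

theorem rs {l0 l : List (V × V)} {a b : V} (h : Rch l0 ((a, b) :: l)) :
    Rch l0 ((b, -a) :: l) := h.tail (.s a b l)

theorem rneg {l0 l : List (V × V)} {a b : V} (h : Rch l0 ((a, b) :: l)) :
    Rch l0 ((-a, -b) :: l) := rs (rs h)

theorem rs' {l0 l : List (V × V)} {a b : V} (h : Rch l0 ((a, b) :: l)) :
    Rch l0 ((-b, a) :: l) := by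
  have := rs (rneg h)
  rwa [neg_neg] at this

theorem rt {l0 l : List (V × V)} {a b : V} (x : ℤ) (h : Rch l0 ((a, b) :: l)) :
    Rch l0 ((a, b + x • a) :: l) := h.tail (.t1 x a b l)

/-- the second kind of move between two handles -/
theorem radd {l0 l : List (V × V)} {a b c d : V} (x : ℤ) (h : Rch l0 ((a, b) :: (c, d) :: l)) :
    Rch l0 ((a + x • c, b) :: (c, d - x • b) :: l) := by
  have h1 : Rch l0 ((b, -a + (-x) • c) :: (c, d + (-x) • b) :: l) :=
    (rs h).tail (.t3 (-x) b (-a) c d l)
  have h2 := rs' h1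
  have e1 : -(-a + (-x) • c) = a + x • c := by
    rw [neg_add, neg_neg, neg_smul, neg_neg]
  have e2 : d + (-x) • b = d - x • b := by rw [neg_smul, sub_eq_add_neg]
  rwa [e1, e2] at h2

theorem swap {l0 l : List (V × V)} {p q : V × V} (h : Rch l0 (p :: q :: l)) :
    Rch l0 (q :: p :: l) := rp h (List.Perm.swap q p l)

variable (B : V →+ V →+ ℤ)

/-- divisibility of all the values for two pairs -/
def Cr (N : ℤ) (p q : V × V) : Prop :=
  N ∣ B p.1 q.1 ∧ N ∣ B p.1 q.2 ∧ N ∣ B p.2 q.1 ∧ N ∣ B p.2 q.2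

/-- congruence to `s` times the standard form -/
def Good (N s : ℤ) (l : List (V × V)) : Prop :=
  (∀ p ∈ l, N ∣ B p.1 p.2 - s) ∧ l.Pairwise (Cr B N)

variable {B}

section

variable (hB : ∀ v, B v v = 0)

include hB

theorem anti (u v : V) : B u v = -B v u := by
  have h := hB (u + v)
  simp only [map_add, AddMonoidHom.add_apply, hB, zero_add, add_zero] at h
  linarith

theorem Cr.symm {N : ℤ} {p q : V × V} (h : Cr B N p q) : Cr B N q p := by
  obtain ⟨h1, h2, h3, h4⟩ := h
  refine ⟨?_, ?_, ?_, ?_⟩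
  · rw [anti hB, dvd_neg]
    exact h1
  · rw [anti hB, dvd_neg]
    exact h3
  · rw [anti hB, dvd_neg]
    exact h2
  · rw [anti hB, dvd_neg]
    exact h4

theorem good_op {N s : ℤ} {l l' : List (V × V)} (h : Good B N s l) (ho : Op l l') :
    Good B N s l' := by
  obtain ⟨h1, h2⟩ := h
  cases ho with
  | perm hp =>
    refine ⟨fun p hp' => h1 p (hp.mem_iff.2 hp'), ?_⟩
    exact (hp.pairwise_iff fun h => Cr.symm hB h).1 h2
  | t1 x a b l =>
    rw [List.pairwise_cons] at h2
    refine ⟨fun p hp => ?_, ?_⟩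
    · rcases List.mem_cons.1 hp with rfl | hp
      · have h3 := h1 (a, b) List.mem_cons_self
        show N ∣ B a (b + x • a) - s
        rw [map_add, map_zsmul, hB, smul_zero, add_zero]
        exact h3
      · exact h1 p (List.mem_cons_of_mem _ hp)
    · rw [List.pairwise_cons]
      refine ⟨fun q hq => ?_, h2.2⟩
      obtain ⟨k1, k2, k3, k4⟩ := h2.1 q hq
      refine ⟨k1, k2, ?_, ?_⟩
      · show N ∣ B (b + x • a) q.1
        rw [map_add, map_zsmul, AddMonoidHom.add_apply, AddMonoidHom.smul_apply, smul_eq_mul]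
        exact dvd_add k3 (Dvd.dvd.mul_left k1 x)
      · show N ∣ B (b + x • a) q.2
        rw [map_add, map_zsmul, AddMonoidHom.add_apply, AddMonoidHom.smul_apply, smul_eq_mul]
        exact dvd_add k4 (Dvd.dvd.mul_left k2 x)
  | s a b l =>
    rw [List.pairwise_cons] at h2
    refine ⟨fun p hp => ?_, ?_⟩
    · rcases List.mem_cons.1 hp with rfl | hp
      · have h3 := h1 (a, b) List.mem_cons_self
        show N ∣ B b (-a) - s
        rw [map_neg, ← anti hB]
        exact h3
      · exact h1 p (List.mem_cons_of_mem _ hp)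
    · rw [List.pairwise_cons]
      refine ⟨fun q hq => ?_, h2.2⟩
      obtain ⟨k1, k2, k3, k4⟩ := h2.1 q hq
      refine ⟨k3, k4, ?_, ?_⟩
      · show N ∣ B (-a) q.1
        rw [map_neg, AddMonoidHom.neg_apply, dvd_neg]
        exact k1
      · show N ∣ B (-a) q.2
        rw [map_neg, AddMonoidHom.neg_apply, dvd_neg]
        exact k2
  | t3 x a b c d l =>
    rw [List.pairwise_cons, List.pairwise_cons] at h2
    obtain ⟨h3, h4, h5⟩ := h2
    have hab := h1 (a, b) List.mem_cons_self
    have hcd := h1 (c, d) (List.mem_cons_of_mem _ List.mem_cons_self)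
    obtain ⟨k1, k2, k3, k4⟩ := h3 (c, d) List.mem_cons_self
    refine ⟨fun p hp => ?_, ?_⟩
    · rcases List.mem_cons.1 hp with rfl | hp
      · show N ∣ B a (b + x • c) - s
        rw [map_add, map_zsmul, smul_eq_mul]
        have e : B a b + x * B a c - s = (B a b - s) + x * B a c := by ring
        rw [e]
        exact dvd_add hab (Dvd.dvd.mul_left k1 x)
      · rcases List.mem_cons.1 hp with rfl | hp
        · show N ∣ B c (d + x • a) - s
          rw [map_add, map_zsmul, smul_eq_mul, anti hB c a]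
          have e : B c d + x * -B a c - s = (B c d - s) - x * B a c := by ring
          rw [e]
          exact dvd_sub hcd (Dvd.dvd.mul_left k1 x)
        · exact h1 p (List.mem_cons_of_mem _ (List.mem_cons_of_mem _ hp))
    · rw [List.pairwise_cons, List.pairwise_cons]
      refine ⟨fun q hq => ?_, fun q hq => ?_, h5⟩
      · rcases List.mem_cons.1 hq with rfl | hq
        · refine ⟨k1, ?_, ?_, ?_⟩
          · show N ∣ B a (d + x • a)
            rw [map_add, map_zsmul, hB, smul_zero, add_zero]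
            exact k2
          · show N ∣ B (b + x • c) c
            rw [map_add, map_zsmul, AddMonoidHom.add_apply, AddMonoidHom.smul_apply, hB,
              smul_zero, add_zero]
            exact k3
          · show N ∣ B (b + x • c) (d + x • a)
            simp only [map_add, map_zsmul, AddMonoidHom.add_apply, AddMonoidHom.smul_apply,
              smul_eq_mul]
            rw [anti hB b a, anti hB c a]
            have e : B b d + x * B c d + x * (-B a b + x * -B a c) =
                B b d + x * (B c d - s) - x * (B a b - s) - x * x * B a c := by ring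
            rw [e]
            exact dvd_sub (dvd_sub (dvd_add k4 (Dvd.dvd.mul_left hcd x))
              (Dvd.dvd.mul_left hab x)) (Dvd.dvd.mul_left k1 _)
        · obtain ⟨i1, i2, i3, i4⟩ := h3 q (List.mem_cons_of_mem _ hq)
          obtain ⟨j1, j2, j3, j4⟩ := h4 q hq
          refine ⟨i1, i2, ?_, ?_⟩
          · show N ∣ B (b + x • c) q.1
            rw [map_add, map_zsmul, AddMonoidHom.add_apply, AddMonoidHom.smul_apply,
              smul_eq_mul]
            exact dvd_add i3 (Dvd.dvd.mul_left j1 x)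
          · show N ∣ B (b + x • c) q.2
            rw [map_add, map_zsmul, AddMonoidHom.add_apply, AddMonoidHom.smul_apply,
              smul_eq_mul]
            exact dvd_add i4 (Dvd.dvd.mul_left j2 x)
      · obtain ⟨i1, i2, i3, i4⟩ := h3 q (List.mem_cons_of_mem _ hq)
        obtain ⟨j1, j2, j3, j4⟩ := h4 q hq
        refine ⟨j1, j2, ?_, ?_⟩
        · show N ∣ B (d + x • a) q.1
          rw [map_add, map_zsmul, AddMonoidHom.add_apply, AddMonoidHom.smul_apply, smul_eq_mul]
          exact dvd_add j3 (Dvd.dvd.mul_left i1 x)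
        · show N ∣ B (d + x • a) q.2
          rw [map_add, map_zsmul, AddMonoidHom.add_apply, AddMonoidHom.smul_apply, smul_eq_mul]
          exact dvd_add j4 (Dvd.dvd.mul_left i2 x)

theorem good_rch {N s : ℤ} {l l' : List (V × V)} (h : Good B N s l) (hr : Rch l l') :
    Good B N s l' := by
  induction hr with
  | refl => exact h
  | tail _ ho ih => exact good_op hB ih ho

/-! ### a minimal value -/

variable {N : ℤ} {l0 : List (V × V)}
  (hmin : ∀ a b c d l, Rch l0 ((a, b) :: (c, d) :: l) → (|B a c| < N ∨ N = 0) → B a c = 0)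
  (hN : 0 ≤ N)

include hmin hN

omit hB in
private theorem red (v : ℤ) (h : ∀ x : ℤ, ∃ a b c d l, Rch l0 ((a, b) :: (c, d) :: l) ∧
    B a c = v + x * N) : N ∣ v := by
  obtain ⟨a, b, c, d, l, hr, he⟩ := h (-(v / N))
  have e : v + -(v / N) * N = v % N := by
    have := Int.emod_add_mul_ediv v N
    linarith [mul_comm N (v / N)]
  rw [e] at he
  refine Int.dvd_of_emod_eq_zero ?_
  rw [← he]
  refine hmin a b c d l hr ?_
  rw [he]
  rcases hN.lt_or_eq with h0 | h0
  · left
    rw [abs_of_nonneg (Int.emod_nonneg _ h0.ne')]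
    exact Int.emod_lt_of_pos _ h0
  · exact Or.inr h0.symm

private theorem m_swap {a b c d : V} {l : List (V × V)}
    (h : Rch l0 ((a, b) :: (c, d) :: l) ∧ B a c = N) :
    Rch l0 ((c, d) :: (-a, -b) :: l) ∧ B c (-a) = N :=
  ⟨swap (rneg h.1), by rw [map_neg, ← anti hB, h.2]⟩

private theorem c1 {a b c d : V} {l : List (V × V)}
    (h : Rch l0 ((a, b) :: (c, d) :: l) ∧ B a c = N) : N ∣ B a d := by
  refine red hmin hN _ fun x => ?_
  refine ⟨a, b, d + x • c, -c, l, swap (rs (rt x (swap h.1))), ?_⟩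
  rw [map_add, map_zsmul, h.2, smul_eq_mul]

private theorem c3 {a b c d : V} {l : List (V × V)}
    (h : Rch l0 ((a, b) :: (c, d) :: l) ∧ B a c = N) : N ∣ B b c := by
  have h1 := c1 hB hmin hN (m_swap hB hmin hN h)
  rw [map_neg, dvd_neg] at h1
  rw [anti hB, dvd_neg]
  exact h1

private theorem c4 {a b c d : V} {l : List (V × V)}
    (h : Rch l0 ((a, b) :: (c, d) :: l) ∧ B a c = N) : N ∣ B b d := by
  obtain ⟨y, hy⟩ := c1 hB hmin hN h
  have h1 : Rch l0 ((a, b) :: (d + (1 - y) • c, -c) :: l) ∧ B a (d + (1 - y) • c) = N := by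
    refine ⟨swap (rs (rt (1 - y) (swap h.1))), ?_⟩
    rw [map_add, map_zsmul, h.2, hy, smul_eq_mul]
    ring
  have h2 := c3 hB hmin hN h1
  rw [map_add, map_zsmul, smul_eq_mul] at h2
  exact (dvd_add_left (Dvd.dvd.mul_left (c3 hB hmin hN h) _)).1 h2

private theorem cH {a b c d : V} {l : List (V × V)}
    (h : Rch l0 ((a, b) :: (c, d) :: l) ∧ B a c = N) : Cr B N (a, b) (c, d) :=
  ⟨by
    show N ∣ B a c
    rw [h.2], c1 hB hmin hN h, c3 hB hmin hN h, c4 hB hmin hN h⟩

private theorem cD {a b c d : V} {l : List (V × V)}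
    (h : Rch l0 ((a, b) :: (c, d) :: l) ∧ B a c = N) : N ∣ B c d - B a b := by
  have h1 : Rch l0 ((a + (1 : ℤ) • c, b) :: (c, d - (1 : ℤ) • b) :: l) ∧
      B (a + (1 : ℤ) • c) c = N := by
    refine ⟨radd 1 h.1, ?_⟩
    rw [one_smul, map_add, AddMonoidHom.add_apply, hB, add_zero, h.2]
  have h2 := c1 hB hmin hN h1
  rw [one_smul, one_smul, map_add, AddMonoidHom.add_apply, map_sub, map_sub] at h2
  have h3 := c1 hB hmin hN h
  have h4 := c3 hB hmin hN h
  rw [anti hB, dvd_neg] at h4
  have e : B c d - B a b = (B a d - B a b + (B c d - B c b)) - B a d + B c b := by ring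
  rw [e]
  exact dvd_add (dvd_sub h2 h3) h4

private theorem m_new {a b c d e f : V} {l : List (V × V)}
    (h : Rch l0 ((a, b) :: (c, d) :: (e, f) :: l) ∧ B a c = N) :
    ∃ x : ℤ, Rch l0 ((a, b) :: (e + x • c, f) :: (c, d - x • f) :: l) ∧
      B a (e + x • c) = N := by
  have key : ∀ x : ℤ, Rch l0 ((a, b) :: (e + x • c, f) :: (c, d - x • f) :: l) := by
    intro x
    have h1 : Rch l0 ((e, f) :: (c, d) :: (a, b) :: l) := by
      refine rp h.1 ?_
      refine List.Perm.trans ?_ (List.Perm.swap (e, f) (c, d) ((a, b) :: l)) |>.trans ?_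
      · exact (List.Perm.swap (c, d) (a, b) _).trans
          (List.Perm.cons _ (List.Perm.swap (e, f) (a, b) l))
      · exact List.Perm.refl _
    have h2 := radd x h1
    refine rp h2 ?_
    exact (List.Perm.cons _ (List.Perm.swap (a, b) (c, d - x • f) l)).trans
      (List.Perm.swap (a, b) (e + x • c, f) _)
  have h1 : N ∣ B a e := red hmin hN _ fun x => by
    refine ⟨a, b, e + x • c, f, _, key x, ?_⟩
    rw [map_add, map_zsmul, h.2, smul_eq_mul]
  obtain ⟨y, hy⟩ := h1
  refine ⟨1 - y, key _, ?_⟩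
  rw [map_add, map_zsmul, h.2, hy, smul_eq_mul]
  ring

private theorem cR1 {a b c d e f : V} {l : List (V × V)}
    (h : Rch l0 ((a, b) :: (c, d) :: (e, f) :: l) ∧ B a c = N) : Cr B N (a, b) (e, f) := by
  obtain ⟨x, hx⟩ := m_new hB hmin hN h
  obtain ⟨k1, k2, k3, k4⟩ := cH hB hmin hN hx
  obtain ⟨i1, i2, i3, i4⟩ := cH hB hmin hN h
  refine ⟨?_, k2, ?_, k4⟩
  · have k1' : N ∣ B a (e + x • c) := k1
    rw [map_add, map_zsmul, smul_eq_mul] at k1'
    exact (dvd_add_left (Dvd.dvd.mul_left i1 _)).1 k1'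
  · have k3' : N ∣ B b (e + x • c) := k3
    rw [map_add, map_zsmul, smul_eq_mul] at k3'
    exact (dvd_add_left (Dvd.dvd.mul_left i3 _)).1 k3'

private theorem cR2 {a b c d e f : V} {l : List (V × V)}
    (h : Rch l0 ((a, b) :: (c, d) :: (e, f) :: l) ∧ B a c = N) : Cr B N (c, d) (e, f) :=
  cR1 hB hmin hN (m_swap hB hmin hN h)

private theorem cRD {a b c d e f : V} {l : List (V × V)}
    (h : Rch l0 ((a, b) :: (c, d) :: (e, f) :: l) ∧ B a c = N) : N ∣ B e f - B a b := by
  obtain ⟨x, hx⟩ := m_new hB hmin hN h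
  have h1 := cD hB hmin hN hx
  obtain ⟨_, k2, _, _⟩ := cR2 hB hmin hN h
  have k2' : N ∣ B c f := k2
  rw [map_add, map_zsmul, AddMonoidHom.add_apply, AddMonoidHom.smul_apply, smul_eq_mul] at h1
  have e : B e f - B a b = (B e f + x * B c f - B a b) - x * B c f := by ring
  rw [e]
  exact dvd_sub h1 (Dvd.dvd.mul_left k2' _)

private theorem cR3 {a b c d e f e' f' : V} {l : List (V × V)}
    (h : Rch l0 ((a, b) :: (c, d) :: (e, f) :: (e', f') :: l) ∧ B a c = N) :
    Cr B N (e, f) (e', f') := by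
  obtain ⟨x, hx⟩ := m_new hB hmin hN h
  have h1 : Rch l0 ((a, b) :: (e + x • c, f) :: (e', f') :: (c, d - x • f) :: l) ∧
      B a (e + x • c) = N :=
    ⟨rp hx.1 (List.Perm.cons _ (List.Perm.cons _ (List.Perm.swap _ _ _))), hx.2⟩
  obtain ⟨k1, k2, k3, k4⟩ := cR2 hB hmin hN h1
  have h2 : Rch l0 ((a, b) :: (c, d) :: (e', f') :: (e, f) :: l) ∧ B a c = N :=
    ⟨rp h.1 (List.Perm.cons _ (List.Perm.cons _ (List.Perm.swap _ _ _))), h.2⟩
  obtain ⟨i1, i2, _, _⟩ := cR2 hB hmin hN h2
  refine ⟨?_, ?_, k3, k4⟩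
  · have k1' : N ∣ B (e + x • c) e' := k1
    rw [map_add, map_zsmul, AddMonoidHom.add_apply, AddMonoidHom.smul_apply, smul_eq_mul] at k1'
    exact (dvd_add_left (Dvd.dvd.mul_left i1 _)).1 k1'
  · have k2' : N ∣ B (e + x • c) f' := k2
    rw [map_add, map_zsmul, AddMonoidHom.add_apply, AddMonoidHom.smul_apply, smul_eq_mul] at k2'
    exact (dvd_add_left (Dvd.dvd.mul_left i2 _)).1 k2'

private theorem good_min {a b c d : V} {l : List (V × V)}
    (h : Rch l0 ((a, b) :: (c, d) :: l) ∧ B a c = N) :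
    Good B N (B a b) ((a, b) :: (c, d) :: l) := by
  have hfront : ∀ p ∈ l, ∃ m, Rch l0 ((a, b) :: (c, d) :: p :: m) := by
    intro p hp
    obtain ⟨s, t, hst⟩ := List.append_of_mem hp
    refine ⟨s ++ t, rp h.1 (List.Perm.cons _ (List.Perm.cons _ ?_))⟩
    rw [hst]
    exact List.perm_middle
  refine ⟨fun p hp => ?_, ?_⟩
  · rcases List.mem_cons.1 hp with rfl | hp
    · show N ∣ B a b - B a b
      rw [sub_self]
      exact dvd_zero _
    · rcases List.mem_cons.1 hp with rfl | hp
      · exact cD hB hmin hN h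
      · obtain ⟨m, hm⟩ := hfront p hp
        exact cRD hB hmin hN (e := p.1) (f := p.2) ⟨hm, h.2⟩
  · rw [List.pairwise_cons, List.pairwise_cons]
    refine ⟨fun q hq => ?_, fun q hq => ?_, ?_⟩
    · rcases List.mem_cons.1 hq with rfl | hq
      · exact cH hB hmin hN h
      · obtain ⟨m, hm⟩ := hfront q hq
        exact cR1 hB hmin hN (e := q.1) (f := q.2) ⟨hm, h.2⟩
    · obtain ⟨m, hm⟩ := hfront q hq
      exact cR2 hB hmin hN (e := q.1) (f := q.2) ⟨hm, h.2⟩
    · rw [List.pairwise_iff_forall_sublist]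
      intro p q hpq
      obtain ⟨m, hm⟩ := hpq.exists_perm_append
      exact cR3 hB hmin hN (e := p.1) (f := p.2) (e' := q.1) (f' := q.2)
        ⟨rp h.1 (List.Perm.cons _ (List.Perm.cons _ hm)), h.2⟩

end

theorem dvd_sum (l : List ℤ) (t : ℤ) (n : ℤ) (h : ∀ z ∈ l, n ∣ z - t) :
    n ∣ l.sum - l.length * t := by
  induction l with
  | nil => simp
  | cons a l ih =>
    have h1 := h a List.mem_cons_self
    have h2 := ih fun z hz => h z (List.mem_cons_of_mem _ hz)
    have e : (a :: l).sum - ((a :: l).length : ℤ) * t = (a - t) + (l.sum - l.length * t) := by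
      rw [List.sum_cons, List.length_cons]
      push_cast
      ring
    rw [e]
    exact dvd_add h1 h2

theorem op_length {l l' : List (V × V)} (h : Op l l') : l'.length = l.length := by
  cases h with
  | perm h => exact h.length_eq.symm
  | t1 => rfl
  | s => rfl
  | t3 => rfl

theorem rch_length {l l' : List (V × V)} (h : Rch l l') : l'.length = l.length := by
  induction h with
  | refl => rfl
  | tail _ h ih => rw [op_length h, ih]

/-- the key: an alternating form with trace zero such that no partial trace in any symplectic basis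
vanishes is `d` times a form congruent to `s` times the standard one modulo `g`, `s` prime to `g` -/
theorem key (hB : ∀ v, B v v = 0) (l0 : List (V × V)) (g : ℕ) (hg : 2 ≤ g)
    (hlen : l0.length = g) (htr : (l0.map fun p => B p.1 p.2).sum = 0)
    (hns : ∀ l, Rch l0 l → ∀ k, 0 < k → k < g → ((l.take k).map fun p => B p.1 p.2).sum ≠ 0) :
    ∃ d s : ℤ, d ≠ 0 ∧ IsCoprime s g ∧ Good B (d * g) (d * s) l0 := by
  -- a minimal value
  obtain ⟨N, hN, hmin, a, b, c, d, l, hr, hac⟩ : ∃ N : ℤ, 0 ≤ N ∧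
      (∀ a b c d l, Rch l0 ((a, b) :: (c, d) :: l) → (|B a c| < N ∨ N = 0) → B a c = 0) ∧
      ∃ a b c d l, Rch l0 ((a, b) :: (c, d) :: l) ∧ B a c = N := by
    by_cases hS : ∃ n : ℕ, 0 < n ∧ ∃ a b c d l, Rch l0 ((a, b) :: (c, d) :: l) ∧
        (B a c).natAbs = n
    · classical
      obtain ⟨hn0, a, b, c, d, l, hr, hac⟩ := Nat.find_spec hS
      refine ⟨(Nat.find hS : ℕ), Int.natCast_nonneg _, ?_, ?_⟩
      · intro a b c d l hr h
        by_contra hne
        rcases h with h | h
        · have h1 : (B a c).natAbs < Nat.find hS := by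
            rw [Int.abs_eq_natAbs] at h
            exact_mod_cast h
          exact Nat.find_min hS h1 ⟨Int.natAbs_pos.2 hne, a, b, c, d, l, hr, rfl⟩
        · omega
      · rcases Int.natAbs_eq (B a c) with h | h
        · exact ⟨a, b, c, d, l, hr, by rw [h, hac]⟩
        · refine ⟨-a, -b, c, d, l, rneg hr, ?_⟩
          rw [map_neg, AddMonoidHom.neg_apply, h, hac, neg_neg]
    · have h0 : ∀ a b c d l, Rch l0 ((a, b) :: (c, d) :: l) → B a c = 0 := by
        intro a b c d l hr
        by_contra hne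
        exact hS ⟨_, Int.natAbs_pos.2 hne, a, b, c, d, l, hr, rfl⟩
      refine ⟨0, le_refl _, fun a b c d l hr _ => h0 a b c d l hr, ?_⟩
      rcases l0 with _ | ⟨⟨a, b⟩, _ | ⟨⟨c, d⟩, l⟩⟩
      · simp at hlen
        omega
      · simp at hlen
        omega
      · exact ⟨a, b, c, d, l, Relation.ReflTransGen.refl, h0 _ _ _ _ _
          Relation.ReflTransGen.refl⟩
  have hgood := good_min hB hmin hN ⟨hr, hac⟩
  obtain ⟨s, hs⟩ : ∃ s, s = B a b := ⟨_, rfl⟩
  rw [← hs] at hgood
  have hgood0 : Good B N s l0 := good_rch hB hgood hr.symm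
  -- the trace
  have hgs : N ∣ g * s := by
    have h1 := dvd_sum (l0.map fun p => B p.1 p.2) s N (by
      intro z hz
      obtain ⟨p, hp, rfl⟩ := List.mem_map.1 hz
      exact hgood0.1 p hp)
    rw [htr, List.length_map, hlen, zero_sub, dvd_neg] at h1
    exact h1
  have hs0 : s ≠ 0 := by
    intro h0
    refine hns _ hr 1 (by omega) (by omega) ?_
    rw [List.take_succ_cons, List.take_zero, List.map_cons, List.map_nil, List.sum_cons,
      List.sum_nil, add_zero]
    show B a b = 0
    rw [← hs, h0]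
  have hN0 : 0 < N := by
    rcases hN.lt_or_eq with h | h
    · exact h
    · rw [← h, zero_dvd_iff] at hgs
      rcases mul_eq_zero.1 hgs with h1 | h1
      · omega
      · exact absurd h1 hs0
  -- no k < g with N | k s
  have hk : ∀ k : ℕ, 0 < k → k < g → ¬ N ∣ k * s := by
    intro k hk0 hkg hdvd
    obtain ⟨j, rfl⟩ : ∃ j, k = j + 1 := ⟨k - 1, by omega⟩
    have hll : l.length + 2 = g := by
      have := rch_length hr
      rw [hlen, List.length_cons, List.length_cons] at this
      exact this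
    have hj : j ≤ l.length := by omega
    have h1 := dvd_sum (((a, b) :: l.take j).map fun p => B p.1 p.2) s N (by
      intro z hz
      obtain ⟨p, hp, rfl⟩ := List.mem_map.1 hz
      rcases List.mem_cons.1 hp with rfl | hp
      · exact hgood.1 _ List.mem_cons_self
      · exact hgood.1 _ (List.mem_cons_of_mem _ (List.mem_cons_of_mem _
          (List.mem_of_mem_take hp))))
    rw [List.length_map, List.length_cons, List.length_take, Nat.min_eq_left hj] at h1
    have h2 : N ∣ (((a, b) :: l.take j).map fun p => B p.1 p.2).sum := by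
      have := dvd_add h1 hdvd
      rwa [sub_add_cancel] at this
    obtain ⟨y, hy⟩ := h2
    have h3 : Rch l0 ((a, b + (-y) • c) :: (c, d + (-y) • a) :: l) :=
      hr.tail (.t3 (-y) a b c d l)
    have h4 : Rch l0 ((a, b + (-y) • c) :: (l ++ [(c, d + (-y) • a)])) :=
      rp h3 (List.Perm.cons _ (List.perm_append_singleton _ _).symm)
    refine hns _ h4 (j + 1) hk0 hkg ?_
    rw [List.take_succ_cons, List.take_append_of_le_length hj, List.map_cons, List.sum_cons]
    rw [List.map_cons, List.sum_cons] at hy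
    show B a (b + (-y) • c) + _ = 0
    rw [map_add, map_zsmul, hac, smul_eq_mul]
    have hy' : B a b + ((l.take j).map fun p => B p.1 p.2).sum = N * y := hy
    linarith
  -- the greatest common divisor
  obtain ⟨D, hD⟩ : ∃ D : ℕ, D = Int.gcd N s := ⟨_, rfl⟩
  have hD0 : 0 < D := by
    rw [hD]
    exact Int.gcd_pos_of_ne_zero_left _ hN0.ne'
  obtain ⟨N', hN'⟩ : (D : ℤ) ∣ N := by
    rw [hD]
    exact Int.gcd_dvd_left _ _
  obtain ⟨s', hs'⟩ : (D : ℤ) ∣ s := by
    rw [hD]
    exact Int.gcd_dvd_right _ _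
  have hD0' : (0 : ℤ) < D := by exact_mod_cast hD0
  have hcop : IsCoprime N' s' := by
    rw [Int.isCoprime_iff_gcd_eq_one]
    have h1 : Int.gcd (D * N') (D * s') = D := by rw [← hN', ← hs', hD]
    rw [Int.gcd_mul_left, Int.natAbs_natCast] at h1
    have h2 : D * Int.gcd N' s' = D * 1 := by rw [h1, mul_one]
    exact Nat.eq_of_mul_eq_mul_left hD0 h2
  have hN'0 : 0 < N' := by
    rw [hN'] at hN0
    exact (mul_pos_iff_of_pos_left hD0').1 hN0
  have hN'g : N' ∣ g := by
    rw [hN', hs'] at hgs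
    have e : (g : ℤ) * (D * s') = D * (g * s') := by ring
    rw [e] at hgs
    have h1 := (mul_dvd_mul_iff_left hD0'.ne').1 hgs
    exact hcop.dvd_of_dvd_mul_right h1
  have hN'eq : N' = g := by
    by_contra hne
    obtain ⟨k, rfl⟩ := Int.eq_ofNat_of_zero_le hN'0.le
    have h1 : k ∣ g := Int.natCast_dvd_natCast.1 hN'g
    have h2 : k ≤ g := Nat.le_of_dvd (by omega) h1
    have h3 : k ≠ g := fun h => hne (by rw [h])
    refine hk k (by exact_mod_cast hN'0) (by omega) ?_
    rw [hN', hs']
    exact ⟨s', by ring⟩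
  refine ⟨D, s', hD0'.ne', ?_, ?_⟩
  · rw [← hN'eq]
    exact hcop.symm
  · rw [← hs', ← hN'eq, ← hN']
    exact hgood0

end Pool.Agent.Helper4.SLC.Comb
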