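import Pool.Agent.Helper78.SLC.Surface

set_option autoImplicit false

/-!
The core of the positive half: a list of `h` pairs of vectors of `ℤ^n` with `n < 2h` is moved to
one whose first pair has the first entry zero.
-/

open scoped commutatorElement
open Pool.Agent.Helper78.SLC

namespace Pool.Agent.Helper4.SLC

/-- two-step nilpotent group over `ℤ × ℤ^n` -/
@[ext]
structure HW (n : ℕ) where
  x : ℤ
  y : Fin n → ℤ
  z : Fin n → ℤ

namespace HW

variable {n : ℕ}

instance : Mul (HW n) := ⟨fun p q => ⟨p.x + q.x, p.y + q.y, p.z + q.z + p.x • q.y⟩⟩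

instance : One (HW n) := ⟨⟨0, 0, 0⟩⟩

instance : Inv (HW n) := ⟨fun p => ⟨-p.x, -p.y, -p.z + p.x • p.y⟩⟩

theorem mul_x (p q : HW n) : (p * q).x = p.x + q.x := rfl
theorem mul_y (p q : HW n) : (p * q).y = p.y + q.y := rfl
theorem mul_z (p q : HW n) : (p * q).z = p.z + q.z + p.x • q.y := rfl
theorem one_x : (1 : HW n).x = 0 := rfl
theorem one_y : (1 : HW n).y = 0 := rfl
theorem one_z : (1 : HW n).z = 0 := rfl
theorem inv_x (p : HW n) : (p⁻¹).x = -p.x := rfl
theorem inv_y (p : HW n) : (p⁻¹).y = -p.y := rfl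
theorem inv_z (p : HW n) : (p⁻¹).z = -p.z + p.x • p.y := rfl

instance : Group (HW n) := Group.ofLeftAxioms
  (fun p q r => by
    ext i
    · simp only [mul_x]
      ring
    · simp only [mul_y]
      exact add_assoc _ _ _
    · simp only [mul_x, mul_y, mul_z, Pi.add_apply, Pi.smul_apply, smul_eq_mul]
      ring)
  (fun p => by
    ext i
    · simp only [mul_x, one_x]
      ring
    · simp only [mul_y, one_y, zero_add]
    · simp only [mul_z, one_x, one_z, zero_add, zero_smul, add_zero])
  (fun p => by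
    ext i
    · simp only [mul_x, one_x, inv_x]
      ring
    · simp only [mul_y, one_y, inv_y, neg_add_cancel]
    · simp only [mul_z, one_z, inv_x, inv_z, Pi.add_apply, Pi.smul_apply, Pi.neg_apply,
        smul_eq_mul, Pi.zero_apply]
      ring)

/-- the `x` coordinate -/
def px : HW n →* Multiplicative ℤ where
  toFun p := Multiplicative.ofAdd p.x
  map_one' := rfl
  map_mul' _ _ := rfl

/-- the `y` coordinate -/
def py : HW n →* Multiplicative (Fin n → ℤ) where
  toFun p := Multiplicative.ofAdd p.y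
  map_one' := rfl
  map_mul' _ _ := rfl

theorem comm (p q : HW n) : ⁅p, q⁆ = ⟨0, 0, p.x • q.y - q.x • p.y⟩ := by
  rw [commutatorElement_def]
  ext i
  · simp only [mul_x, inv_x]
    ring
  · simp only [mul_y, inv_y, Pi.add_apply, Pi.neg_apply, Pi.zero_apply]
    ring
  · simp only [mul_x, mul_z, inv_x, inv_y, inv_z, Pi.add_apply, Pi.smul_apply,
      Pi.neg_apply, smul_eq_mul, Pi.sub_apply]
    ring

theorem cp_eq (l : List (HW n × HW n)) :
    cp l = ⟨0, 0, (l.map fun p => p.1.x • p.2.y - p.2.x • p.1.y).sum⟩ := by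
  induction l with
  | nil => rfl
  | cons p l ih =>
    have h : cp (p :: l) = ⁅p.1, p.2⁆ * cp l := rfl
    rw [h, ih, comm]
    ext i
    · simp only [mul_x]
      ring
    · simp only [mul_y, add_zero]
    · simp only [mul_z, List.map_cons, List.sum_cons, zero_smul, add_zero]

end HW

/-! ### moves on one pair of integers -/

private def Q1 (p p' : ℤ × ℤ) : Prop :=
  ∃ ms : List Mv, ∀ t : List (Multiplicative ℤ × Multiplicative ℤ),
    acts ms (em p :: t) = em p' :: t

private theorem q1_refl (p : ℤ × ℤ) : Q1 p p := ⟨[], fun _ => rfl⟩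

private theorem q1_trans {p q r : ℤ × ℤ} (h : Q1 p q) (h' : Q1 q r) : Q1 p r := by
  obtain ⟨ms, h⟩ := h
  obtain ⟨ms', h'⟩ := h'
  exact ⟨ms' ++ ms, fun t => by rw [acts_append, h, h']⟩

private theorem of_zpow (a k : ℤ) :
    (Multiplicative.ofAdd a) ^ k = Multiplicative.ofAdd (k * a) := by
  rw [← ofAdd_zsmul, smul_eq_mul]

private theorem q1_ta (a b k : ℤ) : Q1 (a, b) (a + k * b, b) := by
  refine ⟨[.ta k], fun t => ?_⟩
  have h : (Multiplicative.ofAdd a) * (Multiplicative.ofAdd b) ^ k =
      Multiplicative.ofAdd (a + k * b) := by rw [of_zpow, ← ofAdd_add]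
  show ((Multiplicative.ofAdd a) * (Multiplicative.ofAdd b) ^ k, _) :: _ = _
  rw [h]
  rfl

private theorem q1_tb (a b k : ℤ) : Q1 (a, b) (a, b + k * a) := by
  refine ⟨[.tb k], fun t => ?_⟩
  have h : (Multiplicative.ofAdd b) * (Multiplicative.ofAdd a) ^ k =
      Multiplicative.ofAdd (b + k * a) := by rw [of_zpow, ← ofAdd_add]
  show (_, (Multiplicative.ofAdd b) * (Multiplicative.ofAdd a) ^ k) :: _ = _
  rw [h]
  rfl

private theorem q1_S (x y : ℤ) : Q1 (x, y) (-y, x) := by
  have h1 := q1_ta x y (-1)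
  have h2 := q1_tb (x + -1 * y) y 1
  have h3 := q1_ta (x + -1 * y) (y + 1 * (x + -1 * y)) (-1)
  have h4 := q1_trans h1 (q1_trans h2 h3)
  have e1 : x + -1 * y + -1 * (y + 1 * (x + -1 * y)) = -y := by ring
  have e2 : y + 1 * (x + -1 * y) = x := by ring
  rwa [e1, e2] at h4

private theorem q1_zero (a b : ℤ) : ∃ m : ℤ, Q1 (a, b) (0, m) := by
  induction h : a.natAbs using Nat.strong_induction_on generalizing a b with
  | _ n ih =>
    by_cases ha : a = 0
    · exact ⟨b, by rw [ha]; exact q1_refl _⟩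
    · have h1 := q1_tb a b (-(b / a))
      have e1 : b + -(b / a) * a = b % a := by
        have := Int.emod_add_mul_ediv b a
        linarith [mul_comm a (b / a)]
      rw [e1] at h1
      have h2 := q1_trans h1 (q1_S a (b % a))
      have hlt : (-(b % a)).natAbs < n := by
        rw [← h, Int.natAbs_neg]
        have h3 := Int.emod_nonneg b ha
        have h4 := Int.emod_lt_abs b ha
        rw [Int.abs_eq_natAbs] at h4
        omega
      obtain ⟨m, hm⟩ := ih _ hlt (-(b % a)) a rfl
      exact ⟨m, q1_trans h2 hm⟩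

/-- a list of pairs of integers is moved to one which is trivial except for one entry -/
private theorem red_one (l : List (ℤ × ℤ)) (hl : l ≠ []) :
    ∃ (ms : List Mv) (m : ℤ) (t : List (Multiplicative ℤ × Multiplicative ℤ)),
      acts ms (l.map em) = em (0, m) :: t ∧ ∀ p ∈ t, p = 1 := by
  obtain ⟨ms, hms⟩ := red_int l
  rcases hL : acts ms (l.map em) with _ | ⟨u, t⟩
  · have := acts_length ms (l.map em)
    rw [hL, List.length_map] at this
    exact absurd (List.length_eq_zero_iff.1 this.symm) hl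
  · rw [hL, List.tail_cons] at hms
    obtain ⟨⟨a, b⟩, rfl⟩ := em_surj u
    obtain ⟨m, ms', h'⟩ := q1_zero a b
    exact ⟨ms' ++ ms, m, t, by rw [acts_append, hL, h'], hms⟩

private theorem acts_ones (ms : List Mv) (K : List (Multiplicative ℤ × Multiplicative ℤ))
    (h : ∀ p ∈ acts ms K, p = 1) : ∀ p ∈ K, p = 1 := by
  have h1 : (acts ms K).map (Prod.map (1 : Multiplicative ℤ →* Multiplicative ℤ)
      (1 : Multiplicative ℤ →* Multiplicative ℤ)) = acts ms K := by
    conv_rhs => rw [← List.map_id (acts ms K)]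
    refine List.map_congr_left fun p hp => ?_
    rw [h p hp]
    rfl
  rw [map_acts] at h1
  have h2 := congrArg (acts (invs ms)) h1
  rw [acts_invs, acts_invs] at h2
  intro p hp
  rw [← h2] at hp
  obtain ⟨q, _, rfl⟩ := List.mem_map.1 hp
  rfl

/-- the core -/
theorem core (n h : ℕ) (hn : n < 2 * h)
    (l : List (Multiplicative (Fin n → ℤ) × Multiplicative (Fin n → ℤ))) (hl : l.length = h) :
    ∃ ms : List Mv, ∀ p ∈ (acts ms l).take 1, p.1 = 1 := by
  subst hl
  obtain ⟨v, hv⟩ : ∃ v : Fin l.length ⊕ Fin l.length → (Fin n → ℤ), v = fun s =>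
      Sum.elim (fun i => Multiplicative.toAdd (l.get i).2)
        (fun i => -Multiplicative.toAdd (l.get i).1) s := ⟨_, rfl⟩
  have hnl : ¬ LinearIndependent ℤ v := by
    intro hli
    have h1 := hli.fintype_card_le_finrank
    rw [Module.finrank_fin_fun, Fintype.card_sum, Fintype.card_fin] at h1
    omega
  obtain ⟨t, ht, i0, hi0⟩ := Fintype.not_linearIndependent_iff.1 hnl
  obtain ⟨P, hP⟩ : ∃ P : Fin l.length → HW n × HW n, P = fun i =>
      ((⟨t (Sum.inl i), Multiplicative.toAdd (l.get i).1, 0⟩ : HW n),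
        (⟨t (Sum.inr i), Multiplicative.toAdd (l.get i).2, 0⟩ : HW n)) := ⟨_, rfl⟩
  have hcp : cp (List.ofFn P) = 1 := by
    rw [HW.cp_eq, List.map_ofFn, List.sum_ofFn]
    have : ∑ i, (((fun p : HW n × HW n => p.1.x • p.2.y - p.2.x • p.1.y) ∘ P) i) = 0 := by
      rw [← ht, Fintype.sum_sum_type, ← Finset.sum_add_distrib]
      refine Finset.sum_congr rfl fun i _ => ?_
      rw [hP, hv]
      show t (Sum.inl i) • Multiplicative.toAdd (l.get i).2 -
        t (Sum.inr i) • Multiplicative.toAdd (l.get i).1 =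
        t (Sum.inl i) • Multiplicative.toAdd (l.get i).2 +
        t (Sum.inr i) • -Multiplicative.toAdd (l.get i).1
      rw [smul_neg, sub_eq_add_neg]
    rw [this]
    rfl
  have hx : (List.ofFn P).map (Prod.map HW.px HW.px) =
      (List.ofFn fun i => (t (Sum.inl i), t (Sum.inr i))).map em := by
    rw [List.map_ofFn, List.map_ofFn, hP]
    rfl
  have hy : (List.ofFn P).map (Prod.map HW.py HW.py) = l := by
    rw [List.map_ofFn]
    conv_rhs => rw [← List.ofFn_get l]
    rw [hP]
    rfl
  have hne : (List.ofFn fun i : Fin l.length => (t (Sum.inl i), t (Sum.inr i))) ≠ [] := by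
    intro h0
    have h1 := congrArg List.length h0
    rw [List.length_ofFn] at h1
    have h2 : l.length = 0 := h1
    omega
  obtain ⟨ms, m, T, hT, hT1⟩ := red_one _ hne
  refine ⟨ms, ?_⟩
  obtain ⟨L, hL⟩ : ∃ L, L = acts ms (List.ofFn P) := ⟨_, rfl⟩
  have hLx : L.map (Prod.map HW.px HW.px) = em (0, m) :: T := by
    rw [hL, map_acts, hx, hT]
  have hLy : L.map (Prod.map HW.py HW.py) = acts ms l := by
    rw [hL, map_acts, hy]
  rcases L with _ | ⟨p, L'⟩
  · simp at hLx
  · rw [List.map_cons, List.cons.injEq] at hLx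
    obtain ⟨hp, hL'⟩ := hLx
    have hp1 : p.1.x = 0 := congrArg (fun q => Multiplicative.toAdd (Prod.fst q)) hp
    have hp2 : p.2.x = m := congrArg (fun q => Multiplicative.toAdd (Prod.snd q)) hp
    have htail : ∀ q ∈ L', q.1.x = 0 ∧ q.2.x = 0 := by
      intro q hq
      have h1 : Prod.map HW.px HW.px q ∈ T := by
        rw [← hL']
        exact List.mem_map_of_mem hq
      have h2 := hT1 _ h1
      exact ⟨congrArg (fun q => Multiplicative.toAdd (Prod.fst q)) h2,
        congrArg (fun q => Multiplicative.toAdd (Prod.snd q)) h2⟩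
    have hm : m ≠ 0 := by
      intro hm
      have h1 : ∀ q ∈ acts ms ((List.ofFn fun i : Fin l.length =>
          (t (Sum.inl i), t (Sum.inr i))).map em), q = 1 := by
        rw [hT, hm]
        intro q hq
        rcases List.mem_cons.1 hq with rfl | hq
        · rfl
        · exact hT1 q hq
      have h2 := acts_ones ms _ h1
      rcases i0 with i | i
      · have h3 := h2 (em (t (Sum.inl i), t (Sum.inr i)))
          (List.mem_map_of_mem ((List.mem_ofFn' _ _).2 ⟨i, rfl⟩))
        exact hi0 (congrArg (fun q => Multiplicative.toAdd (Prod.fst q)) h3)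
      · have h3 := h2 (em (t (Sum.inl i), t (Sum.inr i)))
          (List.mem_map_of_mem ((List.mem_ofFn' _ _).2 ⟨i, rfl⟩))
        exact hi0 (congrArg (fun q => Multiplicative.toAdd (Prod.snd q)) h3)
    have hc : cp (p :: L') = 1 := by rw [hL, cp_acts, hcp]
    rw [HW.cp_eq, List.map_cons, List.sum_cons, hp1, hp2] at hc
    have h0 : (L'.map fun p => p.1.x • p.2.y - p.2.x • p.1.y).sum = 0 := by
      refine List.sum_eq_zero fun z hz => ?_
      obtain ⟨q, hq, rfl⟩ := List.mem_map.1 hz
      rw [(htail q hq).1, (htail q hq).2, zero_smul, zero_smul, sub_zero]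
    rw [h0, zero_smul, zero_sub, add_zero] at hc
    have h1 : -(m • p.1.y) = 0 := congrArg HW.z hc
    have h2 : p.1.y = 0 := by
      funext c
      have h3 := congrFun (neg_eq_zero.1 h1) c
      rw [Pi.smul_apply, smul_eq_mul, Pi.zero_apply] at h3
      rcases mul_eq_zero.1 h3 with h4 | h4
      · exact absurd h4 hm
      · exact h4
    intro q hq
    rw [← hLy, List.map_cons, List.take_succ_cons, List.take_zero, List.mem_singleton] at hq
    rw [hq]
    exact congrArg Multiplicative.ofAdd h2

end Pool.Agent.Helper4.SLC
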