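import Pool.Agent.Helper4.SLC.Link

set_option autoImplicit false

/-!
The criterion for targets whose commutators lie in an infinite cyclic central subgroup.
-/

open scoped commutatorElement
open Pool.Agent.Helper78.SLC

namespace Pool.Agent.Helper4.SLC

section

variable {G : Type*} [Group G] (c : G) (hc : ∀ x : G, c * x = x * c)
  (hinf : ∀ n : ℤ, c ^ n = 1 → n = 0)

include hc in
private theorem zc (n : ℤ) (x : G) : c ^ n * x = x * c ^ n :=
  (Commute.zpow_left (show Commute c x from hc x) n).eq

include hinf in
private theorem zinj {m n : ℤ} (h : c ^ m = c ^ n) : m = n := by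
  have h1 : c ^ (m - n) = 1 := by rw [zpow_sub, h, mul_inv_cancel]
  have := hinf _ h1
  omega

/-- a form with values in `ℤ` computing the commutators -/
theorem exists_form {g : ℕ} (hcomm : ∀ x y : G, ∃ n : ℤ, ⁅x, y⁆ = c ^ n) (f : SG g →* G)
    (hc : ∀ x : G, c * x = x * c) (hinf : ∀ n : ℤ, c ^ n = 1 → n = 0) :
    ∃ (h : SG g →* Multiplicative (Additive (Abelianization (SG g))))
      (B : Additive (Abelianization (SG g)) →+ Additive (Abelianization (SG g)) →+ ℤ),
      (∀ v, B v v = 0) ∧ ∀ u v : SG g, ⁅f u, f v⁆ = c ^ (B (cl h u) (cl h v)) := by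
  choose θ hθ using fun u v : SG g => hcomm (f u) (f v)
  have hr : ∀ u v w, θ u (v * w) = θ u v + θ u w := by
    intro u v w
    refine zinj c hinf ?_
    rw [← hθ, map_mul, zpow_add, ← hθ, ← hθ]
    have h1 : ⁅f u, f v * f w⁆ = ⁅f u, f v⁆ * (f v * ⁅f u, f w⁆ * (f v)⁻¹) := by
      simp only [commutatorElement_def]
      group
    rw [h1, hθ u w, ← zc c hc, mul_assoc (c ^ _), mul_inv_cancel, mul_one]
  have hl : ∀ u v w, θ (u * v) w = θ u w + θ v w := by
    intro u v w
    refine zinj c hinf ?_
    rw [← hθ, map_mul, zpow_add, ← hθ, ← hθ]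
    have h1 : ⁅f u * f v, f w⁆ = (f u * ⁅f v, f w⁆ * (f u)⁻¹) * ⁅f u, f w⁆ := by
      simp only [commutatorElement_def]
      group
    rw [h1, hθ v w, ← zc c hc, mul_assoc (c ^ _), mul_inv_cancel, mul_one, hθ u w, zc c hc]
  have ha : ∀ u, θ u u = 0 := by
    intro u
    refine hinf _ ?_
    rw [← hθ, commutatorElement_self]
  have h1r : ∀ u, θ u 1 = 0 := fun u => by
    have := hr u 1 1
    rw [mul_one] at this
    omega
  have h1l : ∀ u, θ 1 u = 0 := fun u => by
    have := hl 1 1 u
    rw [mul_one] at this
    omega
  let T : SG g → (SG g →* Multiplicative ℤ) := fun u =>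
    { toFun := fun v => Multiplicative.ofAdd (θ u v)
      map_one' := by rw [h1r]; rfl
      map_mul' := fun v w => by rw [hr]; rfl }
  let L2 : SG g →* (Abelianization (SG g) →* Multiplicative ℤ) :=
    { toFun := fun u => Abelianization.lift (T u)
      map_one' := by
        refine Abelianization.hom_ext _ _ (MonoidHom.ext fun v => ?_)
        show Abelianization.lift (T 1) (Abelianization.of v) = 1
        rw [Abelianization.lift_apply_of]
        show Multiplicative.ofAdd (θ 1 v) = 1
        rw [h1l]
        rfl
      map_mul' := fun u w => by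
        refine Abelianization.hom_ext _ _ (MonoidHom.ext fun v => ?_)
        show Abelianization.lift (T (u * w)) (Abelianization.of v) =
          Abelianization.lift (T u) (Abelianization.of v) *
          Abelianization.lift (T w) (Abelianization.of v)
        rw [Abelianization.lift_apply_of, Abelianization.lift_apply_of,
          Abelianization.lift_apply_of]
        show Multiplicative.ofAdd (θ (u * w) v) =
          Multiplicative.ofAdd (θ u v) * Multiplicative.ofAdd (θ w v)
        rw [hl]
        rfl }
  let L3 : Abelianization (SG g) →* (Abelianization (SG g) →* Multiplicative ℤ) :=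
    Abelianization.lift L2
  let B : Additive (Abelianization (SG g)) →+ Additive (Abelianization (SG g)) →+ ℤ :=
    AddMonoidHom.mk' (fun v => AddMonoidHom.mk'
      (fun w => Multiplicative.toAdd (L3 (Additive.toMul v) (Additive.toMul w)))
      (fun w w' => by
        show Multiplicative.toAdd (L3 (Additive.toMul v)
          (Additive.toMul w * Additive.toMul w')) = _
        rw [map_mul]
        rfl))
      (fun v v' => by
        refine AddMonoidHom.ext fun w => ?_
        show Multiplicative.toAdd (L3 (Additive.toMul v * Additive.toMul v')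
          (Additive.toMul w)) = _
        rw [map_mul]
        rfl)
  have hB : ∀ u v : SG g, B (Additive.ofMul (Abelianization.of u))
      (Additive.ofMul (Abelianization.of v)) = θ u v := by
    intro u v
    show Multiplicative.toAdd (Abelianization.lift L2 (Abelianization.of u)
      (Abelianization.of v)) = θ u v
    rw [Abelianization.lift_apply_of]
    show Multiplicative.toAdd (Abelianization.lift (T u) (Abelianization.of v)) = θ u v
    rw [Abelianization.lift_apply_of]
    rfl
  refine ⟨{ toFun := fun u => Multiplicative.ofAdd (Additive.ofMul (Abelianization.of u))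
            map_one' := rfl
            map_mul' := fun _ _ => by rw [map_mul]; rfl }, B, ?_, ?_⟩
  · intro v
    obtain ⟨u, hu⟩ := QuotientGroup.mk_surjective (Additive.toMul v)
    have hu' : v = Additive.ofMul (Abelianization.of u) := hu.symm
    rw [hu', hB, ha]
  · intro u v
    rw [hθ]
    congr 1

end

section

variable {g : ℕ} {V : Type*} [AddCommGroup V]

private theorem cp_pow {G : Type*} [Group G] (c : G) (B : V →+ V →+ ℤ) (h : SG g →* Multiplicative V)
    (f : SG g →* G) (hf : ∀ u v : SG g, ⁅f u, f v⁆ = c ^ (B (cl h u) (cl h v)))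
    (l : List (SG g × SG g)) : cp (l.map (Prod.map f f)) =
      c ^ ((l.map (Prod.map (cl h) (cl h))).map fun p => B p.1 p.2).sum := by
  induction l with
  | nil =>
    show cp [] = c ^ (0 : ℤ)
    rw [zpow_zero]
    rfl
  | cons p l ih =>
    rw [List.map_cons, List.map_cons, List.map_cons, List.sum_cons, zpow_add, ← ih]
    have h1 : cp (Prod.map f f p :: l.map (Prod.map f f)) =
        ⁅f p.1, f p.2⁆ * cp (l.map (Prod.map f f)) := rfl
    rw [h1, hf]
    rfl

private theorem f_sep {G : Type*} [Group G] (c : G) (B : V →+ V →+ ℤ)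
    (h : SG g →* Multiplicative V) (f : SG g →* G)
    (hf : ∀ u v : SG g, ⁅f u, f v⁆ = c ^ (B (cl h u) (cl h v))) (φ : SG g ≃* SG g) (k : ℕ) :
    f (φ (sep g k)) = c ^ (((Lc h φ).take k).map fun p => B p.1 p.2).sum := by
  have h1 : f (φ (sep g k)) = cp ((((st g).map (Prod.map φ φ)).take k).map (Prod.map f f)) := by
    have e : ((((st g).map (Prod.map φ φ)).take k).map (Prod.map f f)) =
        ((st g).take k).map (Prod.map (f.comp φ.toMonoidHom) (f.comp φ.toMonoidHom)) := by
      rw [← List.map_take, List.map_map]
      rfl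
    rw [e, cp_map, cp_take]
    rfl
  rw [h1, cp_pow c B h f hf]
  unfold Lc
  simp only [List.map_take]

end

/-- the criterion -/
theorem criterion (g : ℕ) (hg : 2 ≤ g) {G : Type*} [Group G] (c : G)
    (hc : ∀ x : G, c * x = x * c) (hinf : ∀ n : ℤ, c ^ n = 1 → n = 0)
    (hcomm : ∀ x y : G, ∃ n : ℤ, ⁅x, y⁆ = c ^ n) (f : SG g →* G) :
    (∀ x : SG g, IsCurve g x → f x ≠ 1) ↔
      ∃ d s : ℤ, d ≠ 0 ∧ IsCoprime s g ∧ ∀ i j : Fin g,
        (∃ k : ℤ, ⁅f (ga i), f (ga j)⁆ = c ^ (d * g * k)) ∧
        (∃ k : ℤ, ⁅f (gb i), f (gb j)⁆ = c ^ (d * g * k)) ∧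
        ∃ k : ℤ, ⁅f (ga i), f (gb j)⁆ = c ^ ((if i = j then d * s else 0) + d * g * k) := by
  obtain ⟨h, B, hB, hf⟩ := exists_form c hcomm f hc hinf
  constructor
  · intro hns
    have hLc : Lc h (MulEquiv.refl (SG g)) =
        (List.finRange g).map fun i => (cl h (ga i), cl h (gb i)) := by
      unfold Lc st
      rw [List.map_map, List.map_map]
      rfl
    obtain ⟨d, s, hd, hs, hgood⟩ := Comb.key hB (Lc h (MulEquiv.refl (SG g))) g hg (by
      unfold Lc
      rw [List.length_map, List.length_map, st_length]) (by
      refine hinf _ ?_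
      have h1 := f_sep c B h f hf (MulEquiv.refl (SG g)) g
      rw [List.take_of_length_le (by
        unfold Lc
        rw [List.length_map, List.length_map, st_length])] at h1
      rw [← h1]
      show f (sep g g) = 1
      rw [← cp_take, List.take_of_length_le (by rw [st_length]), cp_st, map_one]) (by
      intro l hl k hk0 hkg h0
      obtain ⟨ψ, hψ⟩ := lc_rch h _ _ hl
      refine hns (ψ (sep g k)) (Or.inr ⟨ψ, k, hk0, hkg, rfl⟩) ?_
      rw [f_sep c B h f hf ψ k, hψ, h0, zpow_zero])
    rw [hLc] at hgood
    obtain ⟨h1, h2⟩ := hgood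
    rw [List.pairwise_map] at h2
    have hcr : ∀ i j : Fin g, i ≠ j → Comb.Cr B (d * g) (cl h (ga i), cl h (gb i))
        (cl h (ga j), cl h (gb j)) := by
      have h3 := (List.pairwise_iff_getElem.1 h2)
      have h4 : ∀ i j : Fin g, i < j → Comb.Cr B (d * g) (cl h (ga i), cl h (gb i))
          (cl h (ga j), cl h (gb j)) := by
        intro i j hij
        have h5 := h3 i j (by rw [List.length_finRange]; exact i.2)
          (by rw [List.length_finRange]; exact j.2) hij
        rw [List.getElem_finRange, List.getElem_finRange] at h5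
        exact h5
      intro i j hij
      rcases lt_or_gt_of_ne hij with h5 | h5
      · exact h4 i j h5
      · exact Comb.Cr.symm hB (h4 j i h5)
    refine ⟨d, s, hd, hs, fun i j => ⟨?_, ?_, ?_⟩⟩
    · by_cases hij : i = j
      · exact ⟨0, by rw [hij, commutatorElement_self, mul_zero, zpow_zero]⟩
      · obtain ⟨k, hk⟩ := (hcr i j hij).1
        exact ⟨k, by rw [hf, ← hk]⟩
    · by_cases hij : i = j
      · exact ⟨0, by rw [hij, commutatorElement_self, mul_zero, zpow_zero]⟩
      · obtain ⟨k, hk⟩ := (hcr i j hij).2.2.2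
        exact ⟨k, by rw [hf, ← hk]⟩
    · by_cases hij : i = j
      · obtain ⟨k, hk⟩ := h1 (cl h (ga i), cl h (gb i))
          (List.mem_map_of_mem (f := fun i => (cl h (ga i), cl h (gb i))) (List.mem_finRange i))
        refine ⟨k, ?_⟩
        rw [if_pos hij, ← hij, hf, ← hk]
        congr 1
        show _ = d * s + (B (cl h (ga i)) (cl h (gb i)) - d * s)
        ring
      · obtain ⟨k, hk⟩ := (hcr i j hij).2.1
        exact ⟨k, by rw [if_neg hij, zero_add, hf, ← hk]⟩
  · rintro ⟨d, s, hd, hs, hds⟩
    obtain ⟨D⟩ := exists_dual g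
    -- the form on the generators
    have haa : ∀ i j, d * g ∣ B (cl h (ga i)) (cl h (ga j)) := fun i j => by
      obtain ⟨k, hk⟩ := (hds i j).1
      rw [hf] at hk
      exact ⟨k, zinj c hinf hk⟩
    have hbb : ∀ i j, d * g ∣ B (cl h (gb i)) (cl h (gb j)) := fun i j => by
      obtain ⟨k, hk⟩ := (hds i j).2.1
      rw [hf] at hk
      exact ⟨k, zinj c hinf hk⟩
    have hab : ∀ i j, d * g ∣ B (cl h (ga i)) (cl h (gb j)) - (if i = j then d * s else 0) :=
      fun i j => by
      obtain ⟨k, hk⟩ := (hds i j).2.2
      rw [hf] at hk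
      refine ⟨k, ?_⟩
      rw [zinj c hinf hk]
      ring
    -- expansions
    have hexp : ∀ u v : SG g, B (cl h u) (cl h v) = ∑ j, (B (cl h u) (cl h (ga j)) *
        va (D.X j) v + B (cl h u) (cl h (gb j)) * va (D.Y j) v) := by
      intro u v
      exact D.expand (χ := { toFun := fun v => Multiplicative.ofAdd (B (cl h u) (cl h v))
                             map_one' := by
                               have : cl h (1 : SG g) = 0 := by
                                 unfold cl
                                 rw [map_one]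
                                 rfl
                               rw [this, map_zero]
                               rfl
                             map_mul' := fun v w => by
                               rw [cl_mul, map_add]
                               rfl }) v
    have hua : ∀ (u : SG g) (j : Fin g), d * g ∣ B (cl h u) (cl h (ga j)) +
        d * s * va (D.Y j) u := by
      intro u j
      rw [Comb.anti hB, hexp]
      have h1 : ∑ i, (B (cl h (ga j)) (cl h (ga i)) * va (D.X i) u +
          (B (cl h (ga j)) (cl h (gb i)) - (if j = i then d * s else 0)) * va (D.Y i) u) =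
          ∑ i, (B (cl h (ga j)) (cl h (ga i)) * va (D.X i) u +
            B (cl h (ga j)) (cl h (gb i)) * va (D.Y i) u) - d * s * va (D.Y j) u := by
        have h2 : d * s * va (D.Y j) u = ∑ i, (if j = i then d * s else 0) * va (D.Y i) u := by
          simp only [ite_mul, zero_mul, Finset.sum_ite_eq, Finset.mem_univ, if_true]
        rw [h2, ← Finset.sum_sub_distrib]
        refine Finset.sum_congr rfl fun i _ => ?_
        ring
      have h3 : d * g ∣ ∑ i, (B (cl h (ga j)) (cl h (ga i)) * va (D.X i) u +
          (B (cl h (ga j)) (cl h (gb i)) - (if j = i then d * s else 0)) * va (D.Y i) u) :=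
        Finset.dvd_sum fun i _ => dvd_add (Dvd.dvd.mul_right (haa j i) _)
          (Dvd.dvd.mul_right (hab j i) _)
      rw [h1] at h3
      have h4 := (dvd_neg (a := d * (g : ℤ))).2 h3
      rw [neg_sub, sub_eq_add_neg, add_comm] at h4
      exact h4
    have hub : ∀ (u : SG g) (j : Fin g), d * g ∣ B (cl h u) (cl h (gb j)) -
        d * s * va (D.X j) u := by
      intro u j
      rw [Comb.anti hB, hexp]
      have h1 : ∑ i, ((B (cl h (gb j)) (cl h (ga i)) + (if i = j then d * s else 0)) *
          va (D.X i) u + B (cl h (gb j)) (cl h (gb i)) * va (D.Y i) u) =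
          ∑ i, (B (cl h (gb j)) (cl h (ga i)) * va (D.X i) u +
            B (cl h (gb j)) (cl h (gb i)) * va (D.Y i) u) + d * s * va (D.X j) u := by
        have h2 : d * s * va (D.X j) u = ∑ i, (if i = j then d * s else 0) * va (D.X i) u := by
          simp only [ite_mul, zero_mul, Finset.sum_ite_eq', Finset.mem_univ, if_true]
        rw [h2, ← Finset.sum_add_distrib]
        refine Finset.sum_congr rfl fun i _ => ?_
        ring
      have h3 : d * g ∣ ∑ i, ((B (cl h (gb j)) (cl h (ga i)) + (if i = j then d * s else 0)) *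
          va (D.X i) u + B (cl h (gb j)) (cl h (gb i)) * va (D.Y i) u) :=
        Finset.dvd_sum fun i _ => dvd_add (Dvd.dvd.mul_right (by
          have h4 := (dvd_neg (a := d * (g : ℤ))).2 (hab i j)
          rw [neg_sub, Comb.anti hB (cl h (ga i)), sub_neg_eq_add, add_comm] at h4
          exact h4) _) (Dvd.dvd.mul_right (hbb j i) _)
      rw [h1] at h3
      have h4 := (dvd_neg (a := d * (g : ℤ))).2 h3
      rw [neg_add, ← sub_eq_add_neg] at h4
      exact h4
    -- the value on the images of a handle
    have hval : ∀ u v : SG g, d * g ∣ B (cl h u) (cl h v) -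
        d * s * ∑ j, (va (D.X j) u * va (D.Y j) v - va (D.X j) v * va (D.Y j) u) := by
      intro u v
      rw [hexp u v, Finset.mul_sum, ← Finset.sum_sub_distrib]
      refine Finset.dvd_sum fun j _ => ?_
      have e : B (cl h u) (cl h (ga j)) * va (D.X j) v +
          B (cl h u) (cl h (gb j)) * va (D.Y j) v -
          d * s * (va (D.X j) u * va (D.Y j) v - va (D.X j) v * va (D.Y j) u) =
          (B (cl h u) (cl h (ga j)) + d * s * va (D.Y j) u) * va (D.X j) v +
          (B (cl h u) (cl h (gb j)) - d * s * va (D.X j) u) * va (D.Y j) v := by ring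
      rw [e]
      exact dvd_add (Dvd.dvd.mul_right (hua u j) _) (Dvd.dvd.mul_right (hub u j) _)
    have hhand : ∀ φ : SG g ≃* SG g, ∃ t : ℤ, (t = 1 ∨ t = -1) ∧ ∀ i : Fin g,
        d * g ∣ B (cl h (φ (ga i))) (cl h (φ (gb i))) - d * s * t := by
      intro φ
      obtain ⟨t, ht, hsum⟩ := sympl D φ
      refine ⟨t, ht, fun i => ?_⟩
      have h1 := hval (φ (ga i)) (φ (gb i))
      have h2 : ∑ j, (va (D.X j) (φ (ga i)) * va (D.Y j) (φ (gb i)) -
          va (D.X j) (φ (gb i)) * va (D.Y j) (φ (ga i))) = t := hsum i
      rwa [h2] at h1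
    have hcop : ∀ k : ℕ, 0 < k → k < g → ∀ t : ℤ, (t = 1 ∨ t = -1) →
        ¬ d * g ∣ k * (d * s * t) := by
      intro k hk0 hkg t ht hdvd
      have e : (k : ℤ) * (d * s * t) = d * (s * (k * t)) := by ring
      rw [e] at hdvd
      have h1 := (mul_dvd_mul_iff_left hd).1 hdvd
      have h2 := hs.symm.dvd_of_dvd_mul_left h1
      have h3 : (g : ℤ) ∣ k := by
        rcases ht with rfl | rfl
        · rwa [mul_one] at h2
        · rwa [mul_neg_one, dvd_neg] at h2
      exact absurd (Nat.le_of_dvd hk0 (Int.natCast_dvd_natCast.1 h3)) (by omega)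
    intro x hx hfx
    rcases hx with ⟨φ, i, rfl⟩ | ⟨φ, k, hk0, hkg, rfl⟩
    · obtain ⟨t, ht, hh⟩ := hhand φ
      have h1 := hf (φ (ga i)) (φ (gb i))
      rw [hfx, commutatorElement_one_left] at h1
      have h2 := hinf _ h1.symm
      have h3 := hh i
      rw [h2, zero_sub, dvd_neg] at h3
      exact hcop 1 (by omega) (by omega) t ht (by rw [Nat.cast_one, one_mul]; exact h3)
    · obtain ⟨t, ht, hh⟩ := hhand φ
      rw [f_sep c B h f hf φ k] at hfx
      have h1 := hinf _ hfx
      have h2 := Comb.dvd_sum (((Lc h φ).take k).map fun p => B p.1 p.2) (d * s * t) (d * g) (by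
        intro z hz
        obtain ⟨p, hp, rfl⟩ := List.mem_map.1 hz
        have h3 := List.mem_of_mem_take hp
        unfold Lc st at h3
        rw [List.map_map, List.map_map] at h3
        obtain ⟨i, _, rfl⟩ := List.mem_map.1 h3
        exact hh i)
      rw [h1, List.length_map, List.length_take, zero_sub, dvd_neg] at h2
      have h3 : (Lc h φ).length = g := by
        unfold Lc
        rw [List.length_map, List.length_map, st_length]
      rw [h3, Nat.min_eq_left hkg.le] at h2
      exact hcop k hk0 hkg t ht h2

end Pool.Agent.Helper4.SLC
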