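import Mathlib

set_option autoImplicit false

/-!
The integral Heisenberg group of rank `2g + 1`: triples `(x, y, z)` with `x, y` in `ℤ^g` and `z` in
`ℤ`, and `(x, y, z) (x', y', z') = (x + x', y + y', z + z' + ∑ i, x_i y'_i)`.
-/

namespace Pool.Agent.Helper4.SLC

/-- the integral Heisenberg group of rank `2g + 1` -/
@[ext]
structure HG (g : ℕ) where
  x : Fin g → ℤ
  y : Fin g → ℤ
  z : ℤ

namespace HG

variable {g : ℕ}

instance : Mul (HG g) :=
  ⟨fun p q => ⟨p.x + q.x, p.y + q.y, p.z + q.z + ∑ i, p.x i * q.y i⟩⟩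

instance : One (HG g) := ⟨⟨0, 0, 0⟩⟩

instance : Inv (HG g) := ⟨fun p => ⟨-p.x, -p.y, -p.z + ∑ i, p.x i * p.y i⟩⟩

theorem mul_x (p q : HG g) : (p * q).x = p.x + q.x := rfl
theorem mul_y (p q : HG g) : (p * q).y = p.y + q.y := rfl
theorem mul_z (p q : HG g) : (p * q).z = p.z + q.z + ∑ i, p.x i * q.y i := rfl
theorem one_x : (1 : HG g).x = 0 := rfl
theorem one_y : (1 : HG g).y = 0 := rfl
theorem one_z : (1 : HG g).z = 0 := rfl
theorem inv_x (p : HG g) : (p⁻¹).x = -p.x := rfl
theorem inv_y (p : HG g) : (p⁻¹).y = -p.y := rfl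
theorem inv_z (p : HG g) : (p⁻¹).z = -p.z + ∑ i, p.x i * p.y i := rfl

theorem bil_add_left (a b c : Fin g → ℤ) : ∑ i, (a + b) i * c i =
    ∑ i, a i * c i + ∑ i, b i * c i := by
  rw [← Finset.sum_add_distrib]
  refine Finset.sum_congr rfl fun i _ => ?_
  rw [Pi.add_apply]
  ring

theorem bil_add_right (a b c : Fin g → ℤ) : ∑ i, a i * (b + c) i =
    ∑ i, a i * b i + ∑ i, a i * c i := by
  rw [← Finset.sum_add_distrib]
  refine Finset.sum_congr rfl fun i _ => ?_
  rw [Pi.add_apply]
  ring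

theorem bil_neg_left (a b : Fin g → ℤ) : ∑ i, (-a) i * b i =
    -∑ i, a i * b i := by
  rw [← Finset.sum_neg_distrib]
  refine Finset.sum_congr rfl fun i _ => ?_
  rw [Pi.neg_apply]
  ring

theorem bil_neg_right (a b : Fin g → ℤ) : ∑ i, a i * (-b) i =
    -∑ i, a i * b i := by
  rw [← Finset.sum_neg_distrib]
  refine Finset.sum_congr rfl fun i _ => ?_
  rw [Pi.neg_apply]
  ring

theorem bil_zero_left (a : Fin g → ℤ) : ∑ i, (0 : Fin g → ℤ) i * a i = 0 :=
  Finset.sum_eq_zero fun i _ => by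
    rw [Pi.zero_apply]
    ring

theorem bil_zero_right (a : Fin g → ℤ) : ∑ i, a i * (0 : Fin g → ℤ) i = 0 :=
  Finset.sum_eq_zero fun i _ => by
    rw [Pi.zero_apply]
    ring

instance : Group (HG g) := Group.ofLeftAxioms
  (fun p q r => by
    ext i
    · simp only [mul_x]
      rw [add_assoc]
    · simp only [mul_y]
      rw [add_assoc]
    · simp only [mul_x, mul_y, mul_z]
      rw [bil_add_left, bil_add_right]
      ring)
  (fun p => by
    ext i
    · simp only [mul_x, one_x, zero_add]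
    · simp only [mul_y, one_y, zero_add]
    · simp only [mul_z, one_x, one_z]
      rw [bil_zero_left]
      ring)
  (fun p => by
    ext i
    · simp only [mul_x, one_x, inv_x, neg_add_cancel]
    · simp only [mul_y, one_y, inv_y, neg_add_cancel]
    · simp only [mul_z, one_z, inv_x, inv_z]
      rw [bil_neg_left]
      ring)

end HG

end Pool.Agent.Helper4.SLC
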