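import Pool.Agent.Helper4.SLC.Sympl
import Pool.Agent.Helper4.SLC.Heis

set_option autoImplicit false

/-!
The negative half: the integral Heisenberg group of rank `2g + 1`.
-/

open scoped commutatorElement
open Pool.Agent.Helper78.SLC
open Function

namespace Pool.Agent.Helper4.SLC

namespace HG

variable {g : ℕ}

theorem comm (p q : HG g) : ⁅p, q⁆ = ⟨0, 0, ∑ i, (p.x i * q.y i - q.x i * p.y i)⟩ := by
  have h : ∑ i, (p.x i * q.y i - q.x i * p.y i) =
      ∑ i, p.x i * q.y i - ∑ i, q.x i * p.y i := by
    rw [← Finset.sum_sub_distrib]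
  rw [commutatorElement_def]
  ext i
  · simp only [mul_x, inv_x, Pi.add_apply, Pi.neg_apply, Pi.zero_apply]
    ring
  · simp only [mul_y, inv_y, Pi.add_apply, Pi.neg_apply, Pi.zero_apply]
    ring
  · rw [h]
    simp only [mul_x, mul_z, inv_x, inv_y, inv_z]
    rw [bil_neg_right, bil_neg_right, bil_add_left, bil_add_left, bil_add_left, bil_neg_left]
    ring

theorem cp_eq (l : List (HG g × HG g)) : cp l =
    ⟨0, 0, (l.map fun p => ∑ i, (p.1.x i * p.2.y i - p.2.x i * p.1.y i)).sum⟩ := by
  induction l with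
  | nil => rfl
  | cons p l ih =>
    have h : cp (p :: l) = ⁅p.1, p.2⁆ * cp l := rfl
    rw [h, ih, comm]
    ext i
    · simp only [mul_x, add_zero]
    · simp only [mul_y, add_zero]
    · simp only [mul_z, List.map_cons, List.sum_cons]
      rw [bil_zero_left, add_zero]

/-- the `x` coordinates -/
def hx (j : Fin g) : HG g →* Multiplicative ℤ where
  toFun p := Multiplicative.ofAdd (p.x j)
  map_one' := rfl
  map_mul' _ _ := rfl

/-- the `y` coordinates -/
def hy (j : Fin g) : HG g →* Multiplicative ℤ where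
  toFun p := Multiplicative.ofAdd (p.y j)
  map_one' := rfl
  map_mul' _ _ := rfl

theorem pow_x (p : HG g) (n : ℕ) : (p ^ n).x = n • p.x := by
  induction n with
  | zero => rw [pow_zero, one_x, zero_smul]
  | succ n ih => rw [pow_succ, mul_x, ih, succ_nsmul]

theorem pow_y (p : HG g) (n : ℕ) : (p ^ n).y = n • p.y := by
  induction n with
  | zero => rw [pow_zero, one_y, zero_smul]
  | succ n ih => rw [pow_succ, mul_y, ih, succ_nsmul]

theorem pow_z (p : HG g) (h : p.y = 0) (n : ℕ) : (p ^ n).z = n • p.z := by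
  induction n with
  | zero => rw [pow_zero, one_z, zero_smul]
  | succ n ih => rw [pow_succ, mul_z, ih, h, bil_zero_right, add_zero, succ_nsmul]

theorem torsion_free (p : HG g) (n : ℕ) (hn : 0 < n) (h : p ^ n = 1) : p = 1 := by
  have key : ∀ z : ℤ, n • z = 0 → z = 0 := by
    intro z hz
    rw [nsmul_eq_mul] at hz
    rcases mul_eq_zero.1 hz with h1 | h1
    · omega
    · exact h1
  have h1 : p.x = 0 := by
    funext i
    refine key _ ?_
    have := congrFun (pow_x p n) i
    rw [h, one_x] at this
    exact this.symm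
  have h2 : p.y = 0 := by
    funext i
    refine key _ ?_
    have := congrFun (pow_y p n) i
    rw [h, one_y] at this
    exact this.symm
  have h3 : p.z = 0 := by
    refine key _ ?_
    have := pow_z p h2 n
    rw [h, one_z] at this
    exact this.symm
  ext i
  · rw [h1, one_x]
  · rw [h2, one_y]
  · rw [h3, one_z]

/-- commuting elements -/
theorem comm_of (p q : HG g) (h : ∀ i, p.x i * q.y i = 0) (h' : ∀ i, q.x i * p.y i = 0) :
    p * q = q * p := by
  ext i
  · rw [mul_x, mul_x, add_comm]
  · rw [mul_y, mul_y, add_comm]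
  · rw [mul_z, mul_z, Finset.sum_eq_zero fun i _ => h i, Finset.sum_eq_zero fun i _ => h' i,
      add_comm p.z]

/-- the central element -/
def cen (g : ℕ) : HG g := ⟨0, 0, 1⟩

theorem cen_zpow (k : ℤ) : cen g ^ k = ⟨0, 0, k⟩ := by
  let ι : Multiplicative ℤ →* HG g :=
    { toFun := fun k => ⟨0, 0, Multiplicative.toAdd k⟩
      map_one' := rfl
      map_mul' := fun k k' => by
        ext i
        · rw [mul_x, add_zero]
        · rw [mul_y, add_zero]
        · rw [mul_z, bil_zero_left, add_zero]
          rfl }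
  have h1 : cen g = ι (Multiplicative.ofAdd 1) := rfl
  rw [h1, ← map_zpow, ← ofAdd_zsmul, smul_eq_mul, mul_one]
  rfl

end HG

variable {g : ℕ}

/-- the weight `1`, but `1 - g` at the last place -/
def wt (g : ℕ) (i : Fin g) : ℤ := if (i : ℕ) + 1 = g then 1 - g else 1

private theorem wt_eq (i : Fin g) : wt g i = 1 - (if (i : ℕ) + 1 = g then (g : ℤ) else 0) := by
  unfold wt
  split_ifs <;> ring

private theorem wt_sum (hg : 1 ≤ g) : ∑ i : Fin g, wt g i = 0 := by
  have h1 : ∀ i : Fin g, wt g i = 1 - (if i = ⟨g - 1, by omega⟩ then (g : ℤ) else 0) := by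
    intro i
    rw [wt_eq]
    congr 1
    refine if_congr ?_ rfl rfl
    rw [Fin.ext_iff]
    have := i.2
    constructor
    · intro h
      show (i : ℕ) = g - 1
      omega
    · intro h
      have h' : (i : ℕ) = g - 1 := h
      omega
  rw [Finset.sum_congr rfl fun i _ => h1 i, Finset.sum_sub_distrib, Finset.sum_ite_eq']
  simp

/-- the homomorphism -/
theorem exists_f (hg : 1 ≤ g) : ∃ f : SG g →* HG g,
    (∀ i, f (ga i) = ⟨Pi.single i (wt g i), 0, 0⟩) ∧ ∀ i, f (gb i) = ⟨0, Pi.single i 1, 0⟩ := by
  obtain ⟨τ, hτ⟩ : ∃ τ : List (HG g × HG g), τ = (List.finRange g).map fun i =>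
      ((⟨Pi.single i (wt g i), 0, 0⟩ : HG g), (⟨0, Pi.single i 1, 0⟩ : HG g)) := ⟨_, rfl⟩
  obtain ⟨F, hF⟩ := exists_hom (g := g) τ (by rw [hτ]; simp) (by
    rw [hτ, HG.cp_eq, List.map_map]
    have h1 : (((fun p : HG g × HG g => ∑ i, (p.1.x i * p.2.y i - p.2.x i * p.1.y i)) ∘
        fun i : Fin g => ((⟨Pi.single i (wt g i), 0, 0⟩ : HG g),
          (⟨0, Pi.single i 1, 0⟩ : HG g)))) = fun i => wt g i := by
      funext i
      show ∑ j, ((Pi.single i (wt g i) : Fin g → ℤ) j * (Pi.single i 1 : Fin g → ℤ) j -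
        (0 : Fin g → ℤ) j * (0 : Fin g → ℤ) j) = wt g i
      rw [Finset.sum_eq_single i]
      · simp
      · intro j _ hj
        simp [hj]
      · intro h
        exact absurd (Finset.mem_univ _) h
    rw [h1, ← Fin.sum_univ_def, wt_sum hg]
    rfl)
  rw [hτ] at hF
  unfold st at hF
  rw [List.map_map] at hF
  have h := fun i => List.map_eq_map_iff.1 hF i (List.mem_finRange i)
  exact ⟨F, fun i => congrArg Prod.fst (h i), fun i => congrArg Prod.snd (h i)⟩

/-- the dual basis exists -/
theorem exists_dual (g : ℕ) : Nonempty (Dual g) := by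
  have key : ∀ c : Fin g × Bool → ℤ, ∃ χ : SG g →* Multiplicative ℤ,
      (∀ i, va χ (ga i) = c (i, true)) ∧ ∀ i, va χ (gb i) = c (i, false) := by
    intro c
    obtain ⟨F, hF⟩ := exists_hom (g := g) ((List.finRange g).map fun i =>
      (Multiplicative.ofAdd (c (i, true)), Multiplicative.ofAdd (c (i, false)))) (by simp) (by
      unfold cp
      refine List.prod_eq_one fun z hz => ?_
      obtain ⟨p, _, rfl⟩ := List.mem_map.1 hz
      exact commutatorElement_eq_one_iff_mul_comm.2 (mul_comm _ _))
    unfold st at hF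
    rw [List.map_map] at hF
    have h := fun i => List.map_eq_map_iff.1 hF i (List.mem_finRange i)
    exact ⟨F, fun i => congrArg (fun p => Multiplicative.toAdd (Prod.fst p)) (h i),
      fun i => congrArg (fun p => Multiplicative.toAdd (Prod.snd p)) (h i)⟩
  choose X hX1 hX2 using fun j : Fin g =>
    key fun x => if x.2 then (if x.1 = j then 1 else 0) else 0
  choose Y hY1 hY2 using fun j : Fin g =>
    key fun x => if x.2 then 0 else (if x.1 = j then 1 else 0)
  exact ⟨⟨X, Y, fun j i => by rw [hX1]; rfl, fun j i => by rw [hX2]; rfl,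
    fun j i => by rw [hY1]; rfl, fun j i => by rw [hY2]; rfl⟩⟩

private theorem dvd_sum (l : List ℤ) (t : ℤ) (n : ℤ) (h : ∀ z ∈ l, n ∣ z - t) :
    n ∣ l.sum - l.length * t := by
  induction l with
  | nil => simp
  | cons a l ih =>
    have h1 := h a List.mem_cons_self
    have h2 := ih fun z hz => h z (List.mem_cons_of_mem _ hz)
    have e : (a :: l).sum - ((a :: l).length : ℤ) * t = (a - t) + (l.sum - l.length * t) := by
      rw [List.sum_cons, List.length_cons]
      push_cast
      ring
    rw [e]
    exact dvd_add h1 h2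

/-- the negative half -/
theorem negative (hg : 2 ≤ g) (f : SG g →* HG g)
    (hfa : ∀ i, f (ga i) = ⟨Pi.single i (wt g i), 0, 0⟩)
    (hfb : ∀ i, f (gb i) = ⟨0, Pi.single i 1, 0⟩) :
    ¬ Injective f ∧ ∀ x : SG g, IsCurve g x → f x ≠ 1 := by
  obtain ⟨d⟩ := exists_dual g
  have hx : ∀ j u, (f u).x j = wt g j * va (d.X j) u := fun j u => by
    have h := d.expand ((HG.hx j).comp f) u
    have e1 : ∀ i, va ((HG.hx j).comp f) (ga i) = if i = j then wt g j else 0 := fun i => by
      show (f (ga i)).x j = _
      rw [hfa]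
      show (Pi.single i (wt g i) : Fin g → ℤ) j = _
      rw [Pi.single_apply]
      by_cases hij : i = j
      · rw [hij, if_pos rfl]
      · rw [if_neg hij, if_neg (Ne.symm hij)]
    have e2 : ∀ i, va ((HG.hx j).comp f) (gb i) = 0 := fun i => by
      show (f (gb i)).x j = _
      rw [hfb]
      rfl
    simp only [e1, e2, zero_mul, add_zero, ite_mul, Finset.sum_ite_eq', Finset.mem_univ,
      if_true] at h
    exact h
  have hy : ∀ j u, (f u).y j = va (d.Y j) u := fun j u => by
    have h := d.expand ((HG.hy j).comp f) u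
    have e1 : ∀ i, va ((HG.hy j).comp f) (ga i) = 0 := fun i => by
      show (f (ga i)).y j = _
      rw [hfa]
      rfl
    have e2 : ∀ i, va ((HG.hy j).comp f) (gb i) = if i = j then 1 else 0 := fun i => by
      show (f (gb i)).y j = _
      rw [hfb]
      show (Pi.single i 1 : Fin g → ℤ) j = _
      rw [Pi.single_apply]
      simp only [eq_comm]
    simp only [e1, e2, zero_mul, zero_add, ite_mul, one_mul, Finset.sum_ite_eq',
      Finset.mem_univ, if_true] at h
    exact h
  have hw : ∀ j : Fin g, wt g j ≠ 0 := by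
    intro j
    unfold wt
    split_ifs <;> omega
  refine ⟨fun hinj => ?_, ?_⟩
  · refine comm_ne hg (hinj ?_)
    rw [map_one, map_commutatorElement, commutatorElement_eq_one_iff_mul_comm, hfa, hfa]
    exact HG.comm_of _ _ (fun i => by
      show _ * (0 : Fin g → ℤ) i = 0
      rw [Pi.zero_apply, mul_zero]) (fun i => by
      show _ * (0 : Fin g → ℤ) i = 0
      rw [Pi.zero_apply, mul_zero])
  · intro x hx' hc
    rcases hx' with ⟨φ, i, rfl⟩ | ⟨φ, k, hk0, hkg, rfl⟩
    · have h1 := d.expand ((d.X i).comp φ.symm.toMonoidHom) (φ (ga i))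
      have e1 : va ((d.X i).comp φ.symm.toMonoidHom) (φ (ga i)) = 1 := by
        show va (d.X i) (φ.symm (φ (ga i))) = 1
        rw [MulEquiv.symm_apply_apply, d.xa, if_pos rfl]
      have e2 : ∀ j, va (d.X j) (φ (ga i)) = 0 := by
        intro j
        have h2 := hx j (φ (ga i))
        rw [hc, HG.one_x, Pi.zero_apply] at h2
        rcases mul_eq_zero.1 h2.symm with h3 | h3
        · exact absurd h3 (hw j)
        · exact h3
      have e3 : ∀ j, va (d.Y j) (φ (ga i)) = 0 := by
        intro j
        rw [← hy, hc, HG.one_y, Pi.zero_apply]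
      rw [e1, Finset.sum_eq_zero fun j _ => by
        rw [e2, e3, mul_zero, mul_zero, add_zero]] at h1
      norm_num at h1
    · obtain ⟨t, ht, hsum⟩ := sympl d φ
      have h1 : f (φ (sep g k)) = cp (((List.finRange g).take k).map fun i =>
          (f (φ (ga i)), f (φ (gb i)))) := by
        have e : (((List.finRange g).take k).map fun i => (f (φ (ga i)), f (φ (gb i)))) =
            ((st g).take k).map (Prod.map (f.comp φ.toMonoidHom) (f.comp φ.toMonoidHom)) := by
          unfold st
          rw [← List.map_take, List.map_map]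
          rfl
        rw [e, cp_map, cp_take]
        rfl
      rw [h1, HG.cp_eq, List.map_map] at hc
      have h2 := congrArg HG.z hc
      rw [HG.one_z] at h2
      have h3 := dvd_sum (((List.finRange g).take k).map
        ((fun p : HG g × HG g => ∑ i, (p.1.x i * p.2.y i - p.2.x i * p.1.y i)) ∘
          fun i => (f (φ (ga i)), f (φ (gb i))))) t g (by
        intro z hz
        obtain ⟨i, _, rfl⟩ := List.mem_map.1 hz
        rw [← hsum i]
        show (g : ℤ) ∣ ∑ j, ((f (φ (ga i))).x j * (f (φ (gb i))).y j -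
          (f (φ (gb i))).x j * (f (φ (ga i))).y j) - _
        rw [← Finset.sum_sub_distrib]
        refine Finset.dvd_sum fun j _ => ?_
        rw [hx, hy, hx, hy]
        show (g : ℤ) ∣ wt g j * mA d φ j i * mD d φ j i - wt g j * mB d φ j i * mC d φ j i -
          (mA d φ j i * mD d φ j i - mB d φ j i * mC d φ j i)
        rw [wt_eq]
        split_ifs
        · exact ⟨-(mA d φ j i * mD d φ j i - mB d φ j i * mC d φ j i), by ring⟩
        · exact ⟨0, by ring⟩)
      have h4 : (((List.finRange g).take k).map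
        ((fun p : HG g × HG g => ∑ i, (p.1.x i * p.2.y i - p.2.x i * p.1.y i)) ∘
          fun i => (f (φ (ga i)), f (φ (gb i))))).sum = 0 := h2
      rw [h4, List.length_map, List.length_take, List.length_finRange, Nat.min_eq_left hkg.le,
        zero_sub, dvd_neg] at h3
      have h5 : (g : ℤ) ∣ k := by
        rcases ht with rfl | rfl
        · rwa [mul_one] at h3
        · rwa [mul_neg_one, dvd_neg] at h3
      have h6 := Int.natCast_dvd_natCast.1 h5
      exact absurd (Nat.le_of_dvd hk0 h6) (by omega)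

/-- the chains of the Heisenberg group -/
theorem chains (m : ℕ) (hm : m ≤ g) : ∃ (ρ : HG g →* Multiplicative (Fin m → ℤ))
    (σ : HG g →* Multiplicative (Fin (g - m) → ℤ × ℤ)), Surjective (ρ.prod σ) ∧
      ∀ x, ρ x = 1 → σ x = 1 → ∀ y, ρ y = 1 → x * y = y * x := by
  let ρ : HG g →* Multiplicative (Fin m → ℤ) :=
    { toFun := fun p => Multiplicative.ofAdd fun i => p.y (Fin.castLE hm i)
      map_one' := rfl
      map_mul' := fun _ _ => rfl }
  let σ : HG g →* Multiplicative (Fin (g - m) → ℤ × ℤ) :=
    { toFun := fun p => Multiplicative.ofAdd fun i =>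
        (p.x ⟨m + i, by omega⟩, p.y ⟨m + i, by omega⟩)
      map_one' := rfl
      map_mul' := fun _ _ => rfl }
  refine ⟨ρ, σ, ?_, ?_⟩
  · rintro ⟨u, v⟩
    obtain ⟨u, rfl⟩ := Multiplicative.ofAdd.surjective u
    obtain ⟨v, rfl⟩ := Multiplicative.ofAdd.surjective v
    refine ⟨⟨fun j => if h : (j : ℕ) < m then 0 else (v ⟨j - m, by omega⟩).1,
      fun j => if h : (j : ℕ) < m then u ⟨j, h⟩ else (v ⟨j - m, by omega⟩).2, 0⟩, ?_⟩
    refine Prod.ext ?_ ?_
    · refine Multiplicative.toAdd.injective ?_
      funext i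
      have h : ((Fin.castLE hm i : Fin g) : ℕ) < m := i.2
      show (if h : ((Fin.castLE hm i : Fin g) : ℕ) < m then u ⟨(Fin.castLE hm i : Fin g), h⟩
        else _) = u i
      rw [dif_pos h]
      rfl
    · refine Multiplicative.toAdd.injective ?_
      funext i
      have h : ¬ (m + (i : ℕ) < m) := by omega
      refine Prod.ext ?_ ?_
      · show (if h : m + (i : ℕ) < m then 0 else (v ⟨m + i - m, by omega⟩).1) = (v i).1
        rw [dif_neg h]
        congr 2
        exact Fin.ext (by show m + (i : ℕ) - m = i; omega)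
      · show (if h : m + (i : ℕ) < m then u ⟨m + i, h⟩ else (v ⟨m + i - m, by omega⟩).2) =
          (v i).2
        rw [dif_neg h]
        congr 2
        exact Fin.ext (by show m + (i : ℕ) - m = i; omega)
  · intro x hx hx' y hy
    have h1 : ∀ i : Fin g, x.y i = 0 := by
      intro i
      by_cases h : (i : ℕ) < m
      · exact congrFun (congrArg Multiplicative.toAdd hx) ⟨i, h⟩
      · have h2 := congrFun (congrArg Multiplicative.toAdd hx') ⟨i - m, by omega⟩
        have h3 : x.y ⟨m + (i - m), by omega⟩ = 0 := congrArg Prod.snd h2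
        have h4 : (⟨m + (i - m), by omega⟩ : Fin g) = i := Fin.ext (by
          show m + ((i : ℕ) - m) = i
          omega)
        rwa [h4] at h3
    refine HG.comm_of x y (fun i => ?_) (fun i => by rw [h1, mul_zero])
    by_cases h : (i : ℕ) < m
    · have h2 : y.y i = 0 := congrFun (congrArg Multiplicative.toAdd hy) ⟨i, h⟩
      rw [h2, mul_zero]
    · have h2 := congrFun (congrArg Multiplicative.toAdd hx') ⟨i - m, by omega⟩
      have h3 : x.x ⟨m + (i - m), by omega⟩ = 0 := congrArg Prod.fst h2
      have h4 : (⟨m + (i - m), by omega⟩ : Fin g) = i := Fin.ext (by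
        show m + ((i : ℕ) - m) = i
        omega)
      rw [h4] at h3
      rw [h3, zero_mul]

end Pool.Agent.Helper4.SLC
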