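import Pool.Agent.Helper4.SLC.Comb
import Pool.Agent.Helper4.SLC.Neg

set_option autoImplicit false

/-!
Elementary operations on the list of homology classes are realised by automorphisms of the surface
group.
-/

open scoped commutatorElement
open Pool.Agent.Helper78.SLC

namespace Pool.Agent.Helper4.SLC

/-- interchange of two consecutive pairs -/
def sw {G : Type*} [Group G] : ℕ → List (G × G) → List (G × G)
  | 0, p :: q :: l => (⁅p.1, p.2⁆ * q.1 * ⁅p.1, p.2⁆⁻¹, ⁅p.1, p.2⁆ * q.2 * ⁅p.1, p.2⁆⁻¹) :: p :: l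
  | n + 1, p :: l => p :: sw n l
  | _, l => l

/-- its inverse -/
def ws {G : Type*} [Group G] : ℕ → List (G × G) → List (G × G)
  | 0, p :: q :: l => q :: (⁅q.1, q.2⁆⁻¹ * p.1 * ⁅q.1, q.2⁆, ⁅q.1, q.2⁆⁻¹ * p.2 * ⁅q.1, q.2⁆) :: l
  | n + 1, p :: l => p :: ws n l
  | _, l => l

variable {G H : Type*} [Group G] [Group H]

private theorem cp_cons' (p : G × G) (l : List (G × G)) : cp (p :: l) = ⁅p.1, p.2⁆ * cp l := rfl

private theorem comm_conj (k x y : G) : ⁅k * x * k⁻¹, k * y * k⁻¹⁆ = k * ⁅x, y⁆ * k⁻¹ := by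
  simp only [commutatorElement_def]
  group

theorem sw_length (n : ℕ) (l : List (G × G)) : (sw n l).length = l.length := by
  induction n generalizing l with
  | zero => rcases l with _ | ⟨p, _ | ⟨q, l⟩⟩ <;> rfl
  | succ n ih =>
    rcases l with _ | ⟨p, l⟩
    · rfl
    · simp [sw, ih l]

theorem ws_length (n : ℕ) (l : List (G × G)) : (ws n l).length = l.length := by
  induction n generalizing l with
  | zero => rcases l with _ | ⟨p, _ | ⟨q, l⟩⟩ <;> rfl
  | succ n ih =>
    rcases l with _ | ⟨p, l⟩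
    · rfl
    · simp [ws, ih l]

theorem cp_sw (n : ℕ) (l : List (G × G)) : cp (sw n l) = cp l := by
  induction n generalizing l with
  | zero =>
    rcases l with _ | ⟨p, _ | ⟨q, l⟩⟩
    · rfl
    · rfl
    · simp only [sw, cp_cons', comm_conj]
      group
  | succ n ih =>
    rcases l with _ | ⟨p, l⟩
    · rfl
    · simp only [sw, cp_cons', ih l]

theorem cp_ws (n : ℕ) (l : List (G × G)) : cp (ws n l) = cp l := by
  induction n generalizing l with
  | zero =>
    rcases l with _ | ⟨p, _ | ⟨q, l⟩⟩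
    · rfl
    · rfl
    · have h := comm_conj ⁅q.1, q.2⁆⁻¹ p.1 p.2
      rw [inv_inv] at h
      simp only [ws, cp_cons', h]
      group
  | succ n ih =>
    rcases l with _ | ⟨p, l⟩
    · rfl
    · simp only [ws, cp_cons', ih l]

theorem map_sw (f : G →* H) (n : ℕ) (l : List (G × G)) :
    (sw n l).map (Prod.map f f) = sw n (l.map (Prod.map f f)) := by
  induction n generalizing l with
  | zero =>
    rcases l with _ | ⟨p, _ | ⟨q, l⟩⟩
    · rfl
    · rfl
    · simp [sw, Prod.map, map_commutatorElement]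
  | succ n ih =>
    rcases l with _ | ⟨p, l⟩
    · rfl
    · simp [sw, ih l]

theorem map_ws (f : G →* H) (n : ℕ) (l : List (G × G)) :
    (ws n l).map (Prod.map f f) = ws n (l.map (Prod.map f f)) := by
  induction n generalizing l with
  | zero =>
    rcases l with _ | ⟨p, _ | ⟨q, l⟩⟩
    · rfl
    · rfl
    · simp [ws, Prod.map, map_commutatorElement]
  | succ n ih =>
    rcases l with _ | ⟨p, l⟩
    · rfl
    · simp [ws, ih l]

theorem ws_sw (n : ℕ) (l : List (G × G)) : ws n (sw n l) = l := by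
  induction n generalizing l with
  | zero =>
    rcases l with _ | ⟨p, _ | ⟨q, l⟩⟩
    · rfl
    · rfl
    · simp only [sw, ws, List.cons.injEq, true_and, and_true]
      refine Prod.ext ?_ ?_
      · group
      · group
  | succ n ih =>
    rcases l with _ | ⟨p, l⟩
    · rfl
    · simp [sw, ws, ih l]

theorem sw_ws (n : ℕ) (l : List (G × G)) : sw n (ws n l) = l := by
  induction n generalizing l with
  | zero =>
    rcases l with _ | ⟨p, _ | ⟨q, l⟩⟩
    · rfl
    · rfl
    · simp only [sw, ws, List.cons.injEq, and_true]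
      refine Prod.ext ?_ ?_
      · group
      · group
  | succ n ih =>
    rcases l with _ | ⟨p, l⟩
    · rfl
    · simp [sw, ws, ih l]

/-- interchanges are realised by automorphisms -/
theorem exists_sw (g n : ℕ) : ∃ φ : SG g ≃* SG g, (st g).map (Prod.map φ φ) = sw n (st g) := by
  obtain ⟨F, hF⟩ := exists_hom (sw n (st g)) ((sw_length _ _).trans (st_length g))
    ((cp_sw _ _).trans (cp_st g))
  obtain ⟨F', hF'⟩ := exists_hom (ws n (st g)) ((ws_length _ _).trans (st_length g))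
    ((cp_ws _ _).trans (cp_st g))
  have h1 : F.comp F' = MonoidHom.id _ := by
    refine hom_ext _ _ ?_
    have e : (st g).map (Prod.map (F.comp F') (F.comp F')) =
        ((st g).map (Prod.map F' F')).map (Prod.map F F) := by
      rw [List.map_map]
      rfl
    rw [e, hF', map_ws, hF, ws_sw]
    exact (List.map_id _).symm
  have h2 : F'.comp F = MonoidHom.id _ := by
    refine hom_ext _ _ ?_
    have e : (st g).map (Prod.map (F'.comp F) (F'.comp F)) =
        ((st g).map (Prod.map F F)).map (Prod.map F' F') := by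
      rw [List.map_map]
      rfl
    rw [e, hF, map_sw, hF', sw_ws]
    exact (List.map_id _).symm
  exact ⟨MonoidHom.toMulEquiv F F' h2 h1, hF⟩

/-! ### the classes of a basis -/

variable {g : ℕ} {V : Type*} [AddCommGroup V] (h : SG g →* Multiplicative V)

/-- the class -/
def cl (u : SG g) : V := Multiplicative.toAdd (h u)

theorem cl_mul (u v : SG g) : cl h (u * v) = cl h u + cl h v := by
  unfold cl
  rw [map_mul]
  rfl

theorem cl_inv (u : SG g) : cl h u⁻¹ = -cl h u := by
  unfold cl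
  rw [map_inv]
  rfl

theorem cl_zpow (u : SG g) (n : ℤ) : cl h (u ^ n) = n • cl h u := by
  unfold cl
  rw [map_zpow]
  rfl

theorem cl_comm (u v : SG g) : cl h ⁅u, v⁆ = 0 := by
  rw [commutatorElement_def, cl_mul, cl_mul, cl_mul, cl_inv, cl_inv]
  abel

/-- the list of the classes -/
def Lc (φ : SG g ≃* SG g) : List (V × V) :=
  ((st g).map (Prod.map φ φ)).map (Prod.map (cl h) (cl h))

private theorem lc_acts (φ : SG g ≃* SG g) (ms : List Mv) : ∃ ψ : SG g ≃* SG g,
    (st g).map (Prod.map ψ ψ) = acts ms ((st g).map (Prod.map φ φ)) := by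
  obtain ⟨χ, hχ⟩ := exists_aut g ms
  refine ⟨χ.trans φ, ?_⟩
  have h1 := map_acts φ.toMonoidHom ms (st g)
  have h2 : (st g).map (Prod.map (χ.trans φ) (χ.trans φ)) =
      ((st g).map (Prod.map χ χ)).map (Prod.map φ φ) := by
    rw [List.map_map]
    rfl
  rw [h2, hχ]
  exact h1

private theorem lc_sw (φ : SG g ≃* SG g) (n : ℕ) : ∃ ψ : SG g ≃* SG g,
    (st g).map (Prod.map ψ ψ) = sw n ((st g).map (Prod.map φ φ)) := by
  obtain ⟨χ, hχ⟩ := exists_sw g n
  refine ⟨χ.trans φ, ?_⟩
  have h1 := map_sw φ.toMonoidHom n (st g)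
  have h2 : (st g).map (Prod.map (χ.trans φ) (χ.trans φ)) =
      ((st g).map (Prod.map χ χ)).map (Prod.map φ φ) := by
    rw [List.map_map]
    rfl
  rw [h2, hχ]
  exact h1

private theorem sw_cl (n : ℕ) (l : List (SG g × SG g)) (pre rest : List (V × V)) (p q : V × V)
    (hn : pre.length = n) (hl : l.map (Prod.map (cl h) (cl h)) = pre ++ p :: q :: rest) :
    (sw n l).map (Prod.map (cl h) (cl h)) = pre ++ q :: p :: rest := by
  induction n generalizing l pre with
  | zero =>
    have h0 : pre = [] := List.length_eq_zero_iff.1 hn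
    subst h0
    rcases l with _ | ⟨p', _ | ⟨q', l⟩⟩
    · simp at hl
    · simp at hl
    · simp only [List.map_cons, List.nil_append, List.cons.injEq] at hl
      obtain ⟨rfl, rfl, rfl⟩ := hl
      simp only [sw, List.map_cons, List.nil_append, List.cons.injEq, and_true]
      refine Prod.ext ?_ ?_
      · show cl h (⁅p'.1, p'.2⁆ * q'.1 * ⁅p'.1, p'.2⁆⁻¹) = cl h q'.1
        rw [cl_mul, cl_mul, cl_inv, cl_comm]
        abel
      · show cl h (⁅p'.1, p'.2⁆ * q'.2 * ⁅p'.1, p'.2⁆⁻¹) = cl h q'.2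
        rw [cl_mul, cl_mul, cl_inv, cl_comm]
        abel
  | succ n ih =>
    rcases pre with _ | ⟨r, pre⟩
    · simp at hn
    · rcases l with _ | ⟨p', l⟩
      · simp at hl
      · rw [List.map_cons, List.cons_append, List.cons.injEq] at hl
        obtain ⟨h1, h2⟩ := hl
        show (p' :: sw n l).map _ = _
        rw [List.map_cons, h1, ih l pre (by simpa using hn) h2]
        rfl

private theorem lc_perm (l l' : List (V × V)) (hp : l.Perm l') : ∀ (pre : List (V × V))
    (φ : SG g ≃* SG g), Lc h φ = pre ++ l → ∃ ψ : SG g ≃* SG g, Lc h ψ = pre ++ l' := by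
  induction hp with
  | nil => exact fun pre φ h1 => ⟨φ, h1⟩
  | @cons x l1 l2 _ ih =>
    intro pre φ h1
    obtain ⟨ψ, hψ⟩ := ih (pre ++ [x]) φ (by rw [h1]; simp)
    exact ⟨ψ, by rw [hψ]; simp⟩
  | swap x y l =>
    intro pre φ h1
    obtain ⟨ψ, hψ⟩ := lc_sw φ pre.length
    refine ⟨ψ, ?_⟩
    unfold Lc
    rw [hψ]
    exact sw_cl h _ _ pre l y x rfl h1
  | trans _ _ ih1 ih2 =>
    intro pre φ h1
    obtain ⟨ψ, hψ⟩ := ih1 pre φ h1
    exact ih2 pre ψ hψ

/-- elementary operations are realised by automorphisms -/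
theorem lc_op (φ : SG g ≃* SG g) (l' : List (V × V)) (ho : Comb.Op (Lc h φ) l') :
    ∃ ψ : SG g ≃* SG g, Lc h ψ = l' := by
  obtain ⟨L, hL⟩ : ∃ L, L = Lc h φ := ⟨_, rfl⟩
  rw [← hL] at ho
  cases ho with
  | perm hp => exact lc_perm h L l' hp [] φ hL.symm
  | t1 x a b l =>
    obtain ⟨ψ, hψ⟩ := lc_acts φ [.tb x]
    refine ⟨ψ, ?_⟩
    unfold Lc at hL ⊢
    rw [hψ]
    rcases hS : (st g).map (Prod.map φ φ) with _ | ⟨p, S⟩
    · rw [hS] at hL
      simp at hL
    · rw [hS] at hL
      simp only [List.map_cons, List.cons.injEq] at hL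
      obtain ⟨h1, rfl⟩ := hL
      have ha : a = cl h p.1 := congrArg Prod.fst h1
      have hb : b = cl h p.2 := congrArg Prod.snd h1
      show (Prod.map (cl h) (cl h) (p.1, p.2 * p.1 ^ x)) :: _ = _
      rw [ha, hb]
      show (cl h p.1, cl h (p.2 * p.1 ^ x)) :: _ = _
      rw [cl_mul, cl_zpow]
  | s a b l =>
    obtain ⟨ψ, hψ⟩ := lc_acts φ [.ta 1, .tb (-1), .ta 1]
    refine ⟨ψ, ?_⟩
    unfold Lc at hL ⊢
    rw [hψ]
    rcases hS : (st g).map (Prod.map φ φ) with _ | ⟨p, S⟩
    · rw [hS] at hL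
      simp at hL
    · rw [hS] at hL
      simp only [List.map_cons, List.cons.injEq] at hL
      obtain ⟨h1, rfl⟩ := hL
      have ha : a = cl h p.1 := congrArg Prod.fst h1
      have hb : b = cl h p.2 := congrArg Prod.snd h1
      show (cl h (p.1 * p.2 ^ (1 : ℤ) * (p.2 * (p.1 * p.2 ^ (1 : ℤ)) ^ (-1 : ℤ)) ^ (1 : ℤ)),
        cl h (p.2 * (p.1 * p.2 ^ (1 : ℤ)) ^ (-1 : ℤ))) :: _ = _
      rw [ha, hb]
      simp only [cl_mul, cl_zpow, one_smul, neg_smul]
      congr 1
      refine Prod.ext ?_ ?_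
      · show cl h p.1 + cl h p.2 + (cl h p.2 + -(cl h p.1 + cl h p.2)) = cl h p.2
        abel
      · show cl h p.2 + -(cl h p.1 + cl h p.2) = -cl h p.1
        abel
  | t3 x a b c d l =>
    obtain ⟨ψ, hψ⟩ := lc_acts φ [.tb x, .sk (.tb x), .te x]
    refine ⟨ψ, ?_⟩
    unfold Lc at hL ⊢
    rw [hψ]
    rcases hS : (st g).map (Prod.map φ φ) with _ | ⟨p, _ | ⟨q, S⟩⟩
    · rw [hS] at hL
      simp at hL
    · rw [hS] at hL
      simp at hL
    · rw [hS] at hL
      simp only [List.map_cons, List.cons.injEq] at hL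
      obtain ⟨h1, h2, rfl⟩ := hL
      have ha : a = cl h p.1 := congrArg Prod.fst h1
      have hb : b = cl h p.2 := congrArg Prod.snd h1
      have hc : c = cl h q.1 := congrArg Prod.fst h2
      have hd : d = cl h q.2 := congrArg Prod.snd h2
      obtain ⟨e, he⟩ : ∃ e, e = p.2 * p.1⁻¹ * p.2⁻¹ * q.1 := ⟨_, rfl⟩
      have hce : cl h e = c - a := by
        rw [he, cl_mul, cl_mul, cl_mul, cl_inv, cl_inv, ha, hc]
        abel
      show (cl h p.1, cl h ((p.2 * p.1⁻¹ * p.2⁻¹ * q.1) ^ x * p.2 * p.1 ^ x)) ::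
        (cl h ((p.2 * p.1⁻¹ * p.2⁻¹ * q.1) ^ x * q.1 * (p.2 * p.1⁻¹ * p.2⁻¹ * q.1) ^ (-x)),
          cl h (q.2 * (p.2 * p.1⁻¹ * p.2⁻¹ * q.1) ^ (-x) *
            ((p.2 * p.1⁻¹ * p.2⁻¹ * q.1) ^ x * q.1 * (p.2 * p.1⁻¹ * p.2⁻¹ * q.1) ^ (-x)) ^ x))
        :: _ = _
      rw [← he]
      simp only [cl_mul, cl_zpow, hce, ← ha, ← hb, ← hc, ← hd, neg_smul, smul_sub, smul_add,
        smul_neg]
      congr 1
      · refine Prod.ext rfl ?_
        show x • c - x • a + b + x • a = b + x • c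
        abel
      · congr 1
        refine Prod.ext ?_ ?_
        · dsimp only
          abel
        · dsimp only
          abel

theorem lc_rch (φ : SG g ≃* SG g) (l' : List (V × V)) (hr : Comb.Rch (Lc h φ) l') :
    ∃ ψ : SG g ≃* SG g, Lc h ψ = l' := by
  induction hr with
  | refl => exact ⟨φ, rfl⟩
  | tail _ ho ih =>
    obtain ⟨ψ, hψ⟩ := ih
    rw [← hψ] at ho
    exact lc_op h ψ _ ho

end Pool.Agent.Helper4.SLC
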