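import Pool.Agent.Helper4.SLC.Core

set_option autoImplicit false

/-!
The positive half.
-/

open scoped commutatorElement
open Pool.Agent.Helper78.SLC

namespace Pool.Agent.Helper4.SLC

variable {G : Type*} [Group G]

private theorem lift_list {A B : Type*} (f : A → B) (l : List B) (h : ∀ x ∈ l, ∃ y, f y = x) :
    ∃ l' : List A, l'.map f = l := by
  induction l with
  | nil => exact ⟨[], rfl⟩
  | cons x l ih =>
    obtain ⟨l', hl'⟩ := ih fun z hz => h z (List.mem_cons_of_mem _ hz)
    obtain ⟨y, hy⟩ := h x List.mem_cons_self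
    exact ⟨y :: l', by rw [List.map_cons, hy, hl']⟩

/-- moves acting on the pairs from number `m` on -/
private theorem acts_drop (m : ℕ) (ms : List Mv) :
    ∃ ms' : List Mv, ∀ l : List (G × G), m ≤ l.length → acts ms' l = l.take m ++ acts ms (l.drop m)
    := by
  induction m with
  | zero => exact ⟨ms, fun l _ => rfl⟩
  | succ m ih =>
    obtain ⟨ms', h⟩ := ih
    refine ⟨ms'.map Mv.sk, fun l hl => ?_⟩
    rcases l with _ | ⟨p, l⟩
    · simp at hl
    · rw [acts_sk, h l (by simpa using hl), List.take_succ_cons, List.drop_succ_cons]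
      rfl

private theorem cp_append' (l l' : List (G × G)) : cp (l ++ l') = cp l * cp l' := by
  unfold cp
  rw [List.map_append, List.prod_append]

private theorem cp_rotate (l : List (G × G)) (m : ℕ) (hm : m ≤ l.length) (h : cp l = 1) :
    cp (l.rotate m) = 1 := by
  rw [List.rotate_eq_drop_append_take hm, cp_append']
  have h1 : cp (l.take m) * cp (l.drop m) = 1 := by rw [← cp_append', List.take_append_drop, h]
  exact mul_eq_one_comm.1 h1

/-- rotations of the handles -/
private theorem exists_rot (g m : ℕ) (hm : m ≤ g) :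
    ∃ φ : SG g ≃* SG g, (st g).map (Prod.map φ φ) = (st g).rotate m := by
  obtain ⟨F, hF⟩ := exists_hom ((st g).rotate m) ((List.length_rotate _ _).trans (st_length g))
    (cp_rotate _ _ (by rw [st_length]; exact hm) (cp_st g))
  obtain ⟨F', hF'⟩ := exists_hom ((st g).rotate (g - m))
    ((List.length_rotate _ _).trans (st_length g))
    (cp_rotate _ _ (by rw [st_length]; omega) (cp_st g))
  have hrot : ∀ a b, a + b = g → ((st g).rotate a).rotate b = st g := by
    intro a b hab
    rw [List.rotate_rotate, hab]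
    have := List.rotate_length (st g)
    rwa [st_length] at this
  have h1 : F.comp F' = MonoidHom.id _ := by
    refine hom_ext _ _ ?_
    have e : (st g).map (Prod.map (F.comp F') (F.comp F')) =
        ((st g).map (Prod.map F' F')).map (Prod.map F F) := by
      rw [List.map_map]
      rfl
    rw [e, hF', List.map_rotate, hF, hrot _ _ (by omega)]
    exact (List.map_id _).symm
  have h2 : F'.comp F = MonoidHom.id _ := by
    refine hom_ext _ _ ?_
    have e : (st g).map (Prod.map (F'.comp F) (F'.comp F)) =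
        ((st g).map (Prod.map F F)).map (Prod.map F' F') := by
      rw [List.map_map]
      rfl
    rw [e, hF, List.map_rotate, hF', hrot _ _ (by omega)]
    exact (List.map_id _).symm
  exact ⟨MonoidHom.toMulEquiv F F' h2 h1, hF⟩

/-- a surjection from `ℤ^n` onto an abelian group generated by `n` elements -/
private theorem exists_surj {A : Type*} [CommGroup A] {n : ℕ} (s : Fin n → A)
    (hs : Subgroup.closure (Set.range s) = ⊤) :
    ∃ σ : Multiplicative (Fin n → ℤ) →* A, Function.Surjective σ := by
  let σ : Multiplicative (Fin n → ℤ) →* A :=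
    { toFun := fun k => ∏ i, s i ^ (Multiplicative.toAdd k i)
      map_one' := by simp
      map_mul' := fun k k' => by
        rw [← Finset.prod_mul_distrib]
        refine Finset.prod_congr rfl fun i _ => ?_
        rw [← zpow_add]
        rfl }
  refine ⟨σ, ?_⟩
  rw [← MonoidHom.range_eq_top, eq_top_iff, ← hs, Subgroup.closure_le]
  rintro _ ⟨i, rfl⟩
  refine ⟨Multiplicative.ofAdd (Pi.single i 1), ?_⟩
  show ∏ j, s j ^ ((Pi.single i 1 : Fin n → ℤ) j) = s i
  rw [Finset.prod_eq_single i]
  · simp
  · intro j _ hj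
    simp [hj]
  · intro h
    exact absurd (Finset.mem_univ _) h

/-- the positive half -/
theorem positive (g : ℕ) (hg : 2 ≤ g) (m n : ℕ) (hmn : 2 * m + n < 2 * g) (N : ℕ → Subgroup G)
    (h0 : N 0 = ⊤)
    (hn : ∀ i < m, ∀ x ∈ N i, ∀ y ∈ N (i + 1), x * y * x⁻¹ ∈ N (i + 1))
    (hc : ∀ i < m, ∃ s ∈ N i, ∀ x ∈ N i, ∃ k : ℤ, (s ^ k)⁻¹ * x ∈ N (i + 1))
    {A : Type*} [CommGroup A] (ρ : N m →* A) (s : Fin n → A)
    (hs : Subgroup.closure (Set.range s) = ⊤) (hρ : ∀ x ∈ ρ.ker, ∀ y : N m, x * y = y * x)
    (f : SG g →* G) :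
    ∃ x : SG g, IsCurve g x ∧ x ≠ 1 ∧ f x = 1 := by
  obtain ⟨σ, hσ⟩ := exists_surj s hs
  obtain ⟨τ, hτ⟩ : ∃ τ, τ = (st g).map (Prod.map f f) := ⟨_, rfl⟩
  have hlen : τ.length = g := by rw [hτ, List.length_map, st_length]
  obtain ⟨ms1, hms1⟩ := red_chain m N hn hc τ (fun p _ => by
    rw [h0]
    exact ⟨Subgroup.mem_top _, Subgroup.mem_top _⟩)
  obtain ⟨L1, hL1⟩ : ∃ L1, L1 = acts ms1 τ := ⟨_, rfl⟩
  have hlen1 : L1.length = g := by rw [hL1, acts_length, hlen]
  rw [← hL1] at hms1
  obtain ⟨T', hT'⟩ := lift_list (Prod.map (N m).subtype (N m).subtype) (L1.drop m) fun p hp =>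
    ⟨(⟨p.1, (hms1 p hp).1⟩, ⟨p.2, (hms1 p hp).2⟩), rfl⟩
  have hT'len : T'.length = g - m := by
    rw [← List.length_map (f := Prod.map (N m).subtype (N m).subtype), hT', List.length_drop,
      hlen1]
  obtain ⟨l, hl⟩ := lift_list (Prod.map σ σ) (T'.map (Prod.map ρ ρ)) fun p _ => by
    obtain ⟨a, ha⟩ := hσ p.1
    obtain ⟨b, hb⟩ := hσ p.2
    exact ⟨(a, b), Prod.ext ha hb⟩
  have hllen : l.length = g - m := by
    rw [← List.length_map (f := Prod.map σ σ), hl, List.length_map, hT'len]
  obtain ⟨ms2, hms2⟩ := core n (g - m) (by omega) l hllen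
  obtain ⟨ms3, hms3⟩ := acts_drop (G := G) m ms2
  obtain ⟨φ, hφ⟩ := exists_aut g (ms3 ++ ms1)
  obtain ⟨r, hr⟩ := exists_rot g m (by omega)
  obtain ⟨L, hL⟩ : ∃ L, L = acts (ms3 ++ ms1) τ := ⟨_, rfl⟩
  have hL' : L = L1.take m ++ acts ms2 (L1.drop m) := by
    rw [hL, acts_append, ← hL1, hms3 _ (by rw [hlen1]; omega)]
  have hLlen : L.length = g := by rw [hL, acts_length, hlen]
  refine ⟨φ (r (sep g 1)), Or.inr ⟨r.trans φ, 1, by omega, by omega, rfl⟩, ?_, ?_⟩
  · intro h
    refine sep_ne (g := g) (k := 1) (by omega) (by omega) ?_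
    exact (r.trans φ).injective (by rw [map_one]; exact h)
  · have h1 : f (φ (r (sep g 1))) = cp ((L.rotate m).take 1) := by
      have e : L.rotate m = (st g).map (Prod.map ((f.comp φ.toMonoidHom).comp r.toMonoidHom)
          ((f.comp φ.toMonoidHom).comp r.toMonoidHom)) := by
        have e1 : (st g).map (Prod.map ((f.comp φ.toMonoidHom).comp r.toMonoidHom)
          ((f.comp φ.toMonoidHom).comp r.toMonoidHom)) =
            (((st g).map (Prod.map r r)).map (Prod.map φ φ)).map (Prod.map f f) := by
          rw [List.map_map, List.map_map]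
          rfl
        rw [e1, hr, List.map_rotate, List.map_rotate, hφ, map_acts, ← hτ, ← hL]
      rw [e, ← List.map_take, cp_map, cp_take]
      rfl
    have h2 : (L.rotate m).take 1 = (acts ms2 (L1.drop m)).take 1 := by
      rw [List.rotate_eq_drop_append_take (by omega), List.take_append_of_le_length (by
        rw [List.length_drop, hLlen]
        omega), hL', List.drop_append_of_le_length (by
          rw [List.length_take, hlen1]
          omega), List.drop_take, Nat.sub_self, List.take_zero, List.nil_append]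
    have h3 : (acts ms2 (L1.drop m)).take 1 =
        ((acts ms2 T').take 1).map (Prod.map (N m).subtype (N m).subtype) := by
      rw [← hT', ← map_acts, List.map_take]
    have h4 : cp ((acts ms2 T').take 1) = 1 := by
      unfold cp
      refine List.prod_eq_one fun z hz => ?_
      obtain ⟨p, hp, rfl⟩ := List.mem_map.1 hz
      rw [commutatorElement_eq_one_iff_mul_comm]
      refine hρ _ ?_ _
      have h5 : Prod.map ρ ρ p ∈ (acts ms2 (l.map (Prod.map σ σ))).take 1 := by
        rw [hl, ← map_acts, ← List.map_take]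
        exact List.mem_map_of_mem hp
      rw [← map_acts, ← List.map_take] at h5
      obtain ⟨q, hq, hqp⟩ := List.mem_map.1 h5
      have h6 := congrArg Prod.fst hqp
      rw [MonoidHom.mem_ker]
      have h7 : σ q.1 = ρ p.1 := h6
      rw [← h7, hms2 q hq, map_one]
    rw [h1, h2, h3, cp_map, h4, map_one]

end Pool.Agent.Helper4.SLC
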