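import Pool.Agent.Helper78.SLC.Isot

set_option autoImplicit false

/-!
Automorphisms of a surface group preserve the intersection form up to sign (proved by lifts to the
Heisenberg group).
-/

open scoped commutatorElement
open Pool.Agent.Helper78.SLC

namespace Pool.Agent.Helper4.SLC

variable {g : ℕ}

/-- value of a homomorphism to `ℤ` -/
abbrev va (χ : SG g →* Multiplicative ℤ) (u : SG g) : ℤ := Multiplicative.toAdd (χ u)

/-- the cup product of two homomorphisms to `ℤ` -/
def pr (χ χ' : SG g →* Multiplicative ℤ) : ℤ :=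
  ∑ i : Fin g, (va χ (ga i) * va χ' (gb i) - va χ' (ga i) * va χ (gb i))

/-- orthogonal pairs are moved to orthogonal pairs -/
theorem pr_comp_zero (χ χ' : SG g →* Multiplicative ℤ) (h : pr χ χ' = 0) (φ : SG g ≃* SG g) :
    pr (χ.comp φ.toMonoidHom) (χ'.comp φ.toMonoidHom) = 0 := by
  obtain ⟨τ, hτ⟩ : ∃ τ : List (He × He), τ = (List.finRange g).map fun i =>
      ((⟨va χ (ga i), va χ' (ga i), 0⟩ : He), (⟨va χ (gb i), va χ' (gb i), 0⟩ : He)) := ⟨_, rfl⟩
  obtain ⟨F, hF⟩ := exists_hom (g := g) τ (by rw [hτ]; simp) (by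
    rw [hτ, He.cp_eq, List.map_map]
    unfold pr at h
    rw [Fin.sum_univ_def] at h
    have : (((fun p : He × He => p.1.x * p.2.y - p.1.y * p.2.x) ∘ fun i : Fin g =>
        ((⟨va χ (ga i), va χ' (ga i), 0⟩ : He), (⟨va χ (gb i), va χ' (gb i), 0⟩ : He)))) =
        fun i => va χ (ga i) * va χ' (gb i) - va χ' (ga i) * va χ (gb i) := rfl
    rw [this, h]
    rfl)
  rw [hτ] at hF
  unfold st at hF
  rw [List.map_map] at hF
  have h' := fun i => List.map_eq_map_iff.1 hF i (List.mem_finRange i)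
  have h1 : ∀ i, F (ga i) = ⟨va χ (ga i), va χ' (ga i), 0⟩ := fun i => congrArg Prod.fst (h' i)
  have h2 : ∀ i, F (gb i) = ⟨va χ (gb i), va χ' (gb i), 0⟩ := fun i => congrArg Prod.snd (h' i)
  have k1 : He.px.comp F = χ := by
    refine PresentedGroup.ext fun x => ?_
    obtain ⟨i, b⟩ := x
    cases b
    · show He.px (F (gb i)) = χ (gb i)
      rw [h2]
      rfl
    · show He.px (F (ga i)) = χ (ga i)
      rw [h1]
      rfl
  have k2 : He.py.comp F = χ' := by
    refine PresentedGroup.ext fun x => ?_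
    obtain ⟨i, b⟩ := x
    cases b
    · show He.py (F (gb i)) = χ' (gb i)
      rw [h2]
      rfl
    · show He.py (F (ga i)) = χ' (ga i)
      rw [h1]
      rfl
  have e1 : cp ((st g).map (Prod.map (F.comp φ.toMonoidHom) (F.comp φ.toMonoidHom))) = 1 := by
    rw [cp_map, cp_st, map_one]
  rw [He.cp_eq] at e1
  have e2 := congrArg He.z e1
  unfold st at e2
  rw [He.one_z, List.map_map, List.map_map] at e2
  unfold pr
  rw [Fin.sum_univ_def, ← e2, ← k1, ← k2]
  rfl

/-- the standard homomorphisms to `ℤ` -/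
structure Dual (g : ℕ) where
  X : Fin g → SG g →* Multiplicative ℤ
  Y : Fin g → SG g →* Multiplicative ℤ
  xa : ∀ j i, va (X j) (ga i) = if i = j then 1 else 0
  xb : ∀ j i, va (X j) (gb i) = 0
  ya : ∀ j i, va (Y j) (ga i) = 0
  yb : ∀ j i, va (Y j) (gb i) = if i = j then 1 else 0

/-- expansion in the dual basis -/
theorem Dual.expand (d : Dual g) (χ : SG g →* Multiplicative ℤ) (u : SG g) :
    va χ u = ∑ j, (va χ (ga j) * va (d.X j) u + va χ (gb j) * va (d.Y j) u) := by
  let ψ : SG g →* Multiplicative ℤ :=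
    { toFun := fun u => Multiplicative.ofAdd
        (∑ j, (va χ (ga j) * va (d.X j) u + va χ (gb j) * va (d.Y j) u))
      map_one' := by
        simp only [va, map_one, toAdd_one, mul_zero, add_zero, Finset.sum_const_zero]
        rfl
      map_mul' := fun u v => by
        rw [← ofAdd_add, ← Finset.sum_add_distrib]
        congr 1
        refine Finset.sum_congr rfl fun j _ => ?_
        simp only [va, map_mul, toAdd_mul]
        ring }
  have h : χ = ψ := by
    refine PresentedGroup.ext fun x => ?_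
    obtain ⟨i, b⟩ := x
    cases b
    · show χ (gb i) = Multiplicative.ofAdd
        (∑ j, (va χ (ga j) * va (d.X j) (gb i) + va χ (gb j) * va (d.Y j) (gb i)))
      simp only [d.xb, d.yb, mul_zero, zero_add, mul_ite, mul_one, Finset.sum_ite_eq,
        Finset.mem_univ, if_true]
      rfl
    · show χ (ga i) = Multiplicative.ofAdd
        (∑ j, (va χ (ga j) * va (d.X j) (ga i) + va χ (gb j) * va (d.Y j) (ga i)))
      simp only [d.xa, d.ya, mul_zero, add_zero, mul_ite, mul_one, Finset.sum_ite_eq,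
        Finset.mem_univ, if_true]
      rfl
  exact congrArg Multiplicative.toAdd (DFunLike.congr_fun h u)

variable (d : Dual g)

/-- `A` block of the matrix of an automorphism -/
def mA (φ : SG g ≃* SG g) : Matrix (Fin g) (Fin g) ℤ := fun j i => va (d.X j) (φ (ga i))
/-- `B` block -/
def mB (φ : SG g ≃* SG g) : Matrix (Fin g) (Fin g) ℤ := fun j i => va (d.X j) (φ (gb i))
/-- `C` block -/
def mC (φ : SG g ≃* SG g) : Matrix (Fin g) (Fin g) ℤ := fun j i => va (d.Y j) (φ (ga i))
/-- `D` block -/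
def mD (φ : SG g ≃* SG g) : Matrix (Fin g) (Fin g) ℤ := fun j i => va (d.Y j) (φ (gb i))

theorem rel_AB (φ : SG g ≃* SG g) :
    mA d φ * (mB d φ).transpose - mB d φ * (mA d φ).transpose = 0 := by
  ext j k
  have h := pr_comp_zero (d.X j) (d.X k) (by
    unfold pr
    simp only [d.xb, mul_zero, sub_zero, Finset.sum_const_zero]) φ
  unfold pr at h
  rw [Matrix.sub_apply, Matrix.mul_apply, Matrix.mul_apply, ← Finset.sum_sub_distrib,
    Matrix.zero_apply, ← h]
  refine Finset.sum_congr rfl fun i _ => ?_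
  show va (d.X j) (φ (ga i)) * va (d.X k) (φ (gb i)) - va (d.X j) (φ (gb i)) *
    va (d.X k) (φ (ga i)) = va (d.X j) (φ (ga i)) * va (d.X k) (φ (gb i)) -
    va (d.X k) (φ (ga i)) * va (d.X j) (φ (gb i))
  ring

theorem rel_CD (φ : SG g ≃* SG g) :
    mC d φ * (mD d φ).transpose - mD d φ * (mC d φ).transpose = 0 := by
  ext j k
  have h := pr_comp_zero (d.Y j) (d.Y k) (by
    unfold pr
    simp only [d.ya, zero_mul, sub_zero, Finset.sum_const_zero]) φ
  unfold pr at h
  rw [Matrix.sub_apply, Matrix.mul_apply, Matrix.mul_apply, ← Finset.sum_sub_distrib,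
    Matrix.zero_apply, ← h]
  refine Finset.sum_congr rfl fun i _ => ?_
  show va (d.Y j) (φ (ga i)) * va (d.Y k) (φ (gb i)) - va (d.Y j) (φ (gb i)) *
    va (d.Y k) (φ (ga i)) = va (d.Y j) (φ (ga i)) * va (d.Y k) (φ (gb i)) -
    va (d.Y k) (φ (ga i)) * va (d.Y j) (φ (gb i))
  ring

private theorem pr_XY (j k : Fin g) : pr (d.X j) (d.Y k) = if j = k then 1 else 0 := by
  unfold pr
  simp only [d.xa, d.xb, d.ya, d.yb, mul_zero, sub_zero, mul_ite, mul_one]
  rw [Finset.sum_ite_eq' Finset.univ k]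
  simp [eq_comm]

private theorem pr_mul_left (χ χ' χ'' : SG g →* Multiplicative ℤ) :
    pr (χ * χ') χ'' = pr χ χ'' + pr χ' χ'' := by
  unfold pr
  rw [← Finset.sum_add_distrib]
  refine Finset.sum_congr rfl fun i _ => ?_
  simp only [va, MonoidHom.mul_apply, toAdd_mul]
  ring

private theorem pr_div_right (χ χ' χ'' : SG g →* Multiplicative ℤ) :
    pr χ (χ' / χ'') = pr χ χ' - pr χ χ'' := by
  unfold pr
  rw [← Finset.sum_sub_distrib]
  refine Finset.sum_congr rfl fun i _ => ?_
  simp only [va, MonoidHom.div_apply, toAdd_div]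
  ring

theorem rel_AD (φ : SG g ≃* SG g) :
    ∃ t : ℤ, mA d φ * (mD d φ).transpose - mB d φ * (mC d φ).transpose = t • 1 := by
  obtain ⟨P, hP⟩ : ∃ P : Fin g → Fin g → ℤ, P = fun j k =>
    pr ((d.X j).comp φ.toMonoidHom) ((d.Y k).comp φ.toMonoidHom) := ⟨_, rfl⟩
  have h1 : ∀ j k, j ≠ k → P j k = 0 := by
    intro j k hjk
    rw [hP]
    exact pr_comp_zero _ _ (by rw [pr_XY, if_neg hjk]) φ
  have h2 : ∀ j k, j ≠ k → P j j = P k k := by
    intro j k hjk
    have h3 := pr_comp_zero (d.X j * d.X k) (d.Y j / d.Y k) (by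
      rw [pr_mul_left, pr_div_right, pr_div_right, pr_XY, pr_XY, pr_XY, pr_XY, if_pos rfl,
        if_pos rfl, if_neg hjk, if_neg hjk.symm]
      ring) φ
    have e1 : (d.X j * d.X k).comp φ.toMonoidHom =
        (d.X j).comp φ.toMonoidHom * (d.X k).comp φ.toMonoidHom := rfl
    have e2 : (d.Y j / d.Y k).comp φ.toMonoidHom =
        (d.Y j).comp φ.toMonoidHom / (d.Y k).comp φ.toMonoidHom := rfl
    rw [e1, e2, pr_mul_left, pr_div_right, pr_div_right] at h3
    have h4 := h1 j k hjk
    have h5 := h1 k j hjk.symm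
    rw [hP] at h4 h5 ⊢
    linarith
  have h3 : ∀ j k, (mA d φ * (mD d φ).transpose - mB d φ * (mC d φ).transpose) j k = P j k := by
    intro j k
    rw [Matrix.sub_apply, Matrix.mul_apply, Matrix.mul_apply, ← Finset.sum_sub_distrib, hP]
    show _ = pr _ _
    unfold pr
    refine Finset.sum_congr rfl fun i _ => ?_
    show va (d.X j) (φ (ga i)) * va (d.Y k) (φ (gb i)) - va (d.X j) (φ (gb i)) *
      va (d.Y k) (φ (ga i)) = va (d.X j) (φ (ga i)) * va (d.Y k) (φ (gb i)) -
      va (d.Y k) (φ (ga i)) * va (d.X j) (φ (gb i))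
    ring
  by_cases hg : Nonempty (Fin g)
  · obtain ⟨i0⟩ := hg
    refine ⟨P i0 i0, ?_⟩
    ext j k
    rw [h3, Matrix.smul_apply, Matrix.one_apply]
    by_cases hjk : j = k
    · rw [if_pos hjk, ← hjk, smul_eq_mul, mul_one]
      by_cases h : j = i0
      · rw [h]
      · exact h2 j i0 h
    · rw [if_neg hjk, smul_zero]
      exact h1 j k hjk
  · refine ⟨0, ?_⟩
    ext j k
    exact absurd ⟨j⟩ hg

/-- the matrix of an automorphism -/
def mM (φ : SG g ≃* SG g) : Matrix (Fin g ⊕ Fin g) (Fin g ⊕ Fin g) ℤ :=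
  Matrix.fromBlocks (mA d φ) (mB d φ) (mC d φ) (mD d φ)

/-- its symplectic adjoint -/
def mN (φ : SG g ≃* SG g) : Matrix (Fin g ⊕ Fin g) (Fin g ⊕ Fin g) ℤ :=
  Matrix.fromBlocks (mD d φ).transpose (-(mB d φ).transpose) (-(mC d φ).transpose)
    (mA d φ).transpose

theorem mul_MN (φ : SG g ≃* SG g) : ∃ t : ℤ, mM d φ * mN d φ = t • 1 := by
  obtain ⟨t, ht⟩ := rel_AD d φ
  refine ⟨t, ?_⟩
  unfold mM mN
  rw [Matrix.fromBlocks_multiply]
  have h1 : mA d φ * (mD d φ).transpose + mB d φ * -(mC d φ).transpose = t • 1 := by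
    rw [← ht, Matrix.mul_neg, sub_eq_add_neg]
  have h2 : mA d φ * -(mB d φ).transpose + mB d φ * (mA d φ).transpose = 0 := by
    have := rel_AB d φ
    rw [Matrix.mul_neg, neg_add_eq_sub, ← neg_sub, this, neg_zero]
  have h3 : mC d φ * (mD d φ).transpose + mD d φ * -(mC d φ).transpose = 0 := by
    rw [Matrix.mul_neg, ← sub_eq_add_neg, rel_CD d φ]
  have h4 : mC d φ * -(mB d φ).transpose + mD d φ * (mA d φ).transpose = t • 1 := by
    have h5 := congrArg Matrix.transpose ht
    rw [Matrix.transpose_sub, Matrix.transpose_mul, Matrix.transpose_mul,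
      Matrix.transpose_transpose, Matrix.transpose_transpose, Matrix.transpose_smul,
      Matrix.transpose_one] at h5
    rw [← h5, Matrix.mul_neg, neg_add_eq_sub]
  rw [h1, h2, h3, h4, ← Matrix.fromBlocks_one, Matrix.fromBlocks_smul, smul_zero]

theorem mul_inv_M (φ : SG g ≃* SG g) : mM d φ.symm * mM d φ = 1 := by
  have key : ∀ (χ : SG g →* Multiplicative ℤ) (u : SG g),
      va χ u = ∑ j, (va χ (φ.symm (ga j)) * va (d.X j) (φ u) +
        va χ (φ.symm (gb j)) * va (d.Y j) (φ u)) := by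
    intro χ u
    have h := d.expand (χ.comp φ.symm.toMonoidHom) (φ u)
    have e : va (χ.comp φ.symm.toMonoidHom) (φ u) = va χ u := by
      show va χ (φ.symm (φ u)) = va χ u
      rw [MulEquiv.symm_apply_apply]
    rw [e] at h
    exact h
  unfold mM
  rw [Matrix.fromBlocks_multiply, ← Matrix.fromBlocks_one]
  congr 1
  · ext k i
    rw [Matrix.add_apply, Matrix.mul_apply, Matrix.mul_apply, ← Finset.sum_add_distrib]
    have h := key (d.X k) (ga i)
    rw [d.xa] at h
    rw [Matrix.one_apply, ← if_congr (eq_comm (a := i) (b := k)) rfl rfl, h]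
    rfl
  · ext k i
    rw [Matrix.add_apply, Matrix.mul_apply, Matrix.mul_apply, ← Finset.sum_add_distrib]
    have h := key (d.X k) (gb i)
    rw [d.xb] at h
    rw [Matrix.zero_apply, h]
    rfl
  · ext k i
    rw [Matrix.add_apply, Matrix.mul_apply, Matrix.mul_apply, ← Finset.sum_add_distrib]
    have h := key (d.Y k) (ga i)
    rw [d.ya] at h
    rw [Matrix.zero_apply, h]
    rfl
  · ext k i
    rw [Matrix.add_apply, Matrix.mul_apply, Matrix.mul_apply, ← Finset.sum_add_distrib]
    have h := key (d.Y k) (gb i)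
    rw [d.yb] at h
    rw [Matrix.one_apply, ← if_congr (eq_comm (a := i) (b := k)) rfl rfl, h]
    rfl

/-- an automorphism preserves the intersection form up to sign -/
theorem sympl (φ : SG g ≃* SG g) :
    ∃ t : ℤ, (t = 1 ∨ t = -1) ∧ ∀ i : Fin g,
      ∑ j, (mA d φ j i * mD d φ j i - mB d φ j i * mC d φ j i) = t := by
  by_cases hg : Nonempty (Fin g)
  swap
  · exact ⟨1, Or.inl rfl, fun i => absurd ⟨i⟩ hg⟩
  obtain ⟨i0⟩ := hg
  obtain ⟨t, ht⟩ := mul_MN d φ
  obtain ⟨t', ht'⟩ := mul_MN d φ.symm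
  have h1 : mN d φ = t • mM d φ.symm := by
    calc mN d φ = (mM d φ.symm * mM d φ) * mN d φ := by rw [mul_inv_M, one_mul]
      _ = t • mM d φ.symm := by rw [mul_assoc, ht, mul_smul_comm, mul_one]
  have hs : mM d φ * mM d φ.symm = 1 := by
    have := mul_inv_M d φ.symm
    rwa [MulEquiv.symm_symm] at this
  have h2 : mN d φ.symm = t' • mM d φ := by
    calc mN d φ.symm = (mM d φ * mM d φ.symm) * mN d φ.symm := by rw [hs, one_mul]
      _ = t' • mM d φ := by rw [mul_assoc, ht', mul_smul_comm, mul_one]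
  have h3 : ∀ j i, mA d φ j i = t * (t' * mA d φ j i) := by
    intro j i
    have e1 : mA d φ j i = t * mD d φ.symm i j := congrFun (congrFun h1 (Sum.inr i)) (Sum.inr j)
    have e2 : mD d φ.symm i j = t' * mA d φ j i :=
      congrFun (congrFun h2 (Sum.inl j)) (Sum.inl i)
    rw [← e2]
    exact e1
  have h4 : ∀ j i, mC d φ j i = t * (t' * mC d φ j i) := by
    intro j i
    have e1 : -mC d φ j i = t * mC d φ.symm i j := congrFun (congrFun h1 (Sum.inr i)) (Sum.inl j)
    have e2 : -mC d φ.symm i j = t' * mC d φ j i :=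
      congrFun (congrFun h2 (Sum.inr j)) (Sum.inl i)
    rw [← e2]
    linarith
  have h5 : t * t' = 1 := by
    by_contra hne
    have h6 : ∀ z : ℤ, z = t * (t' * z) → z = 0 := by
      intro z hz
      have h7 : (t * t' - 1) * z = 0 := by linarith
      rcases mul_eq_zero.1 h7 with h8 | h8
      · exact absurd (by linarith) hne
      · exact h8
    have h7 := congrFun (congrFun (mul_inv_M d φ) (Sum.inl i0)) (Sum.inl i0)
    rw [Matrix.mul_apply, Fintype.sum_sum_type, Matrix.one_apply_eq] at h7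
    have h8 : ∑ j, mM d φ.symm (Sum.inl i0) (Sum.inl j) * mM d φ (Sum.inl j) (Sum.inl i0) = 0 :=
      Finset.sum_eq_zero fun j _ => by
        have : mM d φ (Sum.inl j) (Sum.inl i0) = 0 := h6 _ (h3 j i0)
        rw [this, mul_zero]
    have h9 : ∑ j, mM d φ.symm (Sum.inl i0) (Sum.inr j) * mM d φ (Sum.inr j) (Sum.inl i0) = 0 :=
      Finset.sum_eq_zero fun j _ => by
        have : mM d φ (Sum.inr j) (Sum.inl i0) = 0 := h6 _ (h4 j i0)
        rw [this, mul_zero]
    rw [h8, h9] at h7
    norm_num at h7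
  refine ⟨t, Int.eq_one_or_neg_one_of_mul_eq_one h5, fun i => ?_⟩
  have h6 : mN d φ * mM d φ = t • 1 := by
    rw [h1, smul_mul_assoc, mul_inv_M]
  have h7 := congrFun (congrFun h6 (Sum.inl i)) (Sum.inl i)
  rw [Matrix.mul_apply, Fintype.sum_sum_type, Matrix.smul_apply, Matrix.one_apply_eq,
    ← Finset.sum_add_distrib, smul_eq_mul, mul_one] at h7
  rw [← h7]
  refine Finset.sum_congr rfl fun j _ => ?_
  show mA d φ j i * mD d φ j i - mB d φ j i * mC d φ j i =
    mD d φ j i * mA d φ j i + -mB d φ j i * mC d φ j i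
  ring

end Pool.Agent.Helper4.SLC
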