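import Mathlib

set_option autoImplicit false

/-!
The fundamental group of a torus bundle over the torus: `ℤ² ⋊ ℤ²`, where `(i, j)` acts by
`(a, b) ↦ (-1)^j (a, b + 2 i a)`.
-/

namespace Pool.Agent.Helper4.SLC

/-- `(-1)^j` -/
def sg (j : ℤ) : ℤ := if Even j then 1 else -1

theorem sg_add (j k : ℤ) : sg (j + k) = sg j * sg k := by
  unfold sg
  by_cases hj : Even j <;> by_cases hk : Even k <;> simp [Int.even_add, hj, hk]

theorem sg_neg (j : ℤ) : sg (-j) = sg j := by
  unfold sg
  simp only [even_neg]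

theorem sg_mul_self (j : ℤ) : sg j * sg j = 1 := by
  unfold sg
  split_ifs <;> norm_num

theorem sg_cases (j : ℤ) : sg j = 1 ∨ sg j = -1 := by
  unfold sg
  split_ifs
  · exact Or.inl rfl
  · exact Or.inr rfl

/-- `ℤ² ⋊ ℤ²`: `a, b` are the coordinates in the fibre, `i, j` those in the base -/
@[ext]
structure TB where
  a : ℤ
  b : ℤ
  i : ℤ
  j : ℤ

namespace TB

instance : Mul TB := ⟨fun p q =>
  ⟨p.a + sg p.j * q.a, p.b + sg p.j * (q.b + 2 * p.i * q.a), p.i + q.i, p.j + q.j⟩⟩

instance : One TB := ⟨⟨0, 0, 0, 0⟩⟩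

instance : Inv TB := ⟨fun p => ⟨-(sg p.j * p.a), -(sg p.j * (p.b - 2 * p.i * p.a)), -p.i, -p.j⟩⟩

theorem mul_a (p q : TB) : (p * q).a = p.a + sg p.j * q.a := rfl
theorem mul_b (p q : TB) : (p * q).b = p.b + sg p.j * (q.b + 2 * p.i * q.a) := rfl
theorem mul_i (p q : TB) : (p * q).i = p.i + q.i := rfl
theorem mul_j (p q : TB) : (p * q).j = p.j + q.j := rfl
theorem one_a : (1 : TB).a = 0 := rfl
theorem one_b : (1 : TB).b = 0 := rfl
theorem one_i : (1 : TB).i = 0 := rfl
theorem one_j : (1 : TB).j = 0 := rfl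
theorem inv_a (p : TB) : (p⁻¹).a = -(sg p.j * p.a) := rfl
theorem inv_b (p : TB) : (p⁻¹).b = -(sg p.j * (p.b - 2 * p.i * p.a)) := rfl
theorem inv_i (p : TB) : (p⁻¹).i = -p.i := rfl
theorem inv_j (p : TB) : (p⁻¹).j = -p.j := rfl

private theorem sg_zero : sg 0 = 1 := rfl

instance : Group TB := Group.ofLeftAxioms
  (fun p q r => by
    ext
    · simp only [mul_a, mul_j, sg_add]
      ring
    · simp only [mul_a, mul_b, mul_i, mul_j, sg_add]
      ring
    · simp only [mul_i]
      ring
    · simp only [mul_j]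
      ring)
  (fun p => by
    ext
    · simp only [mul_a, one_a, one_j, sg_zero]
      ring
    · simp only [mul_b, one_b, one_i, one_j, sg_zero]
      ring
    · simp only [mul_i, one_i]
      ring
    · simp only [mul_j, one_j]
      ring)
  (fun p => by
    ext
    · simp only [mul_a, one_a, inv_a, inv_j, sg_neg]
      ring
    · simp only [mul_b, one_b, inv_b, inv_i, inv_j, sg_neg]
      ring
    · simp only [mul_i, one_i, inv_i]
      ring
    · simp only [mul_j, one_j, inv_j]
      ring)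

end TB

end Pool.Agent.Helper4.SLC
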