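import Pool.Agent.Helper4.SLC.TB
import Pool.Agent.Helper4.SLC.Pos
import Pool.Agent.Helper4.SLC.Neg

set_option autoImplicit false

/-!
The group of the torus bundle fails to have the simple loop property exactly for genus two.
-/

open scoped commutatorElement
open Pool.Agent.Helper78.SLC
open Function

namespace Pool.Agent.Helper4.SLC

namespace TB

/-- the base coordinates -/
def hi : TB →* Multiplicative ℤ where
  toFun p := Multiplicative.ofAdd p.i
  map_one' := rfl
  map_mul' _ _ := rfl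

/-- the base coordinates -/
def hj : TB →* Multiplicative ℤ where
  toFun p := Multiplicative.ofAdd p.j
  map_one' := rfl
  map_mul' _ _ := rfl

private theorem sg_two (j : ℤ) : ((sg j : ℤ) : ZMod 2) = 1 := by
  rcases sg_cases j with h | h <;> rw [h] <;> rfl

/-- the fibre coordinates modulo two -/
def ha : TB →* Multiplicative (ZMod 2) where
  toFun p := Multiplicative.ofAdd (p.a : ZMod 2)
  map_one' := by
    show Multiplicative.ofAdd ((0 : ℤ) : ZMod 2) = 1
    rw [Int.cast_zero]
    rfl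
  map_mul' p q := by
    rw [← ofAdd_add, mul_a, Int.cast_add, Int.cast_mul, sg_two, one_mul]

/-- the fibre coordinates modulo two -/
def hb : TB →* Multiplicative (ZMod 2) where
  toFun p := Multiplicative.ofAdd (p.b : ZMod 2)
  map_one' := by
    show Multiplicative.ofAdd ((0 : ℤ) : ZMod 2) = 1
    rw [Int.cast_zero]
    rfl
  map_mul' p q := by
    have h2 : (2 : ZMod 2) = 0 := rfl
    rw [← ofAdd_add, mul_b]
    push_cast
    rw [sg_two, one_mul, h2, zero_mul, zero_mul, add_zero]

/-- the commutator -/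
theorem comm (p q : TB) : ⁅p, q⁆ =
    ⟨(1 - sg q.j) * p.a - (1 - sg p.j) * q.a,
      (1 - sg q.j) * p.b - (1 - sg p.j) * q.b + 2 * (sg p.j * p.i * q.a - sg q.j * q.i * p.a),
      0, 0⟩ := by
  have h1 := sg_mul_self p.j
  have h2 := sg_mul_self q.j
  rw [commutatorElement_def, mul_assoc, ← mul_inv_rev, mul_inv_eq_iff_eq_mul]
  ext
  · simp only [mul_a]
    show _ = _ + sg 0 * _
    rw [show sg 0 = 1 from rfl]
    ring
  · simp only [mul_b, mul_a]
    show _ = _ + sg 0 * (_ + 2 * 0 * _)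
    rw [show sg 0 = 1 from rfl]
    ring
  · simp only [mul_i]
    show _ = 0 + _
    ring
  · simp only [mul_j]
    show _ = 0 + _
    ring

/-- a trivial commutator -/
theorem comm_parity (p q : TB) (h : ⁅p, q⁆ = 1) :
    (p.i : ZMod 2) * q.a - q.i * p.a + (p.b * q.j - q.b * p.j) = 0 := by
  rw [comm] at h
  have h1 : (1 - sg q.j) * p.b - (1 - sg p.j) * q.b +
      2 * (sg p.j * p.i * q.a - sg q.j * q.i * p.a) = 0 := congrArg TB.b h
  have key : ∀ j : ℤ, ∃ k : ℤ, 1 - sg j = 2 * k ∧ (k : ZMod 2) = (j : ZMod 2) := by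
    intro j
    unfold sg
    split_ifs with hj
    · refine ⟨0, by ring, ?_⟩
      rw [(ZMod.intCast_zmod_eq_zero_iff_dvd j 2).2 (by exact_mod_cast hj.two_dvd), Int.cast_zero]
    · refine ⟨1, by ring, ?_⟩
      obtain ⟨m, hm⟩ := Int.not_even_iff_odd.1 hj
      rw [hm]
      push_cast
      have h2 : (2 : ZMod 2) = 0 := rfl
      rw [h2, zero_mul, zero_add]
  obtain ⟨k, hk, hk'⟩ := key q.j
  obtain ⟨l, hl, hl'⟩ := key p.j
  rw [hk, hl] at h1
  have h3 : k * p.b - l * q.b + (sg p.j * p.i * q.a - sg q.j * q.i * p.a) = 0 := by linarith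
  have h4 := congrArg (fun z : ℤ => (z : ZMod 2)) h3
  simp only [Int.cast_add, Int.cast_sub, Int.cast_mul, Int.cast_zero, sg_two, one_mul, hk',
    hl'] at h4
  rw [← h4]
  ring

theorem torsion_free (p : TB) (n : ℕ) (hn : 0 < n) (h : p ^ n = 1) : p = 1 := by
  have key : ∀ z : ℤ, n • z = 0 → z = 0 := by
    intro z hz
    rw [nsmul_eq_mul] at hz
    rcases mul_eq_zero.1 hz with h1 | h1
    · omega
    · exact h1
  have hi' : p.i = 0 := by
    have h1 := congrArg (fun x => Multiplicative.toAdd (hi x)) h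
    simp only [map_pow, map_one, toAdd_pow, toAdd_one] at h1
    exact key _ h1
  have hj' : p.j = 0 := by
    have h1 := congrArg (fun x => Multiplicative.toAdd (hj x)) h
    simp only [map_pow, map_one, toAdd_pow, toAdd_one] at h1
    exact key _ h1
  have hpow : ∀ m : ℕ, p ^ m = ⟨m • p.a, m • p.b, 0, 0⟩ := by
    intro m
    induction m with
    | zero =>
      rw [pow_zero]
      ext
      · show (0 : ℤ) = 0 • p.a
        rw [zero_smul]
      · show (0 : ℤ) = 0 • p.b
        rw [zero_smul]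
      · rfl
      · rfl
    | succ m ih =>
      rw [pow_succ', ih]
      ext
      · rw [mul_a, hj', show sg 0 = 1 from rfl, succ_nsmul, one_mul, add_comm]
      · rw [mul_b, hj', hi', show sg 0 = 1 from rfl, succ_nsmul]
        ring
      · rw [mul_i, hi', zero_add]
      · rw [mul_j, hj', zero_add]
  rw [hpow] at h
  have h1 : n • p.a = 0 := congrArg TB.a h
  have h2 : n • p.b = 0 := congrArg TB.b h
  ext
  · exact key _ h1
  · exact key _ h2
  · exact hi'
  · exact hj'

end TB

/-- expansion in the dual basis, any abelian target -/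
theorem Dual.expand' {g : ℕ} (d : Dual g) {W : Type*} [AddCommGroup W]
    (χ : SG g →* Multiplicative W) (u : SG g) :
    Multiplicative.toAdd (χ u) = ∑ j, (va (d.X j) u • Multiplicative.toAdd (χ (ga j)) +
      va (d.Y j) u • Multiplicative.toAdd (χ (gb j))) := by
  let ψ : SG g →* Multiplicative W :=
    { toFun := fun u => Multiplicative.ofAdd
        (∑ j, (va (d.X j) u • Multiplicative.toAdd (χ (ga j)) +
          va (d.Y j) u • Multiplicative.toAdd (χ (gb j))))
      map_one' := by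
        simp only [va, map_one, toAdd_one, zero_smul, add_zero, Finset.sum_const_zero]
        rfl
      map_mul' := fun u v => by
        rw [← ofAdd_add, ← Finset.sum_add_distrib]
        congr 1
        refine Finset.sum_congr rfl fun j _ => ?_
        simp only [va, map_mul, toAdd_mul, add_smul]
        abel }
  have h : χ = ψ := by
    refine PresentedGroup.ext fun x => ?_
    obtain ⟨i, b⟩ := x
    cases b
    · show χ (gb i) = Multiplicative.ofAdd
        (∑ j, (va (d.X j) (gb i) • Multiplicative.toAdd (χ (ga j)) +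
          va (d.Y j) (gb i) • Multiplicative.toAdd (χ (gb j))))
      simp only [d.xb, d.yb, zero_smul, zero_add, ite_smul, one_smul, Finset.sum_ite_eq,
        Finset.mem_univ, if_true]
      rfl
    · show χ (ga i) = Multiplicative.ofAdd
        (∑ j, (va (d.X j) (ga i) • Multiplicative.toAdd (χ (ga j)) +
          va (d.Y j) (ga i) • Multiplicative.toAdd (χ (gb j))))
      simp only [d.xa, d.ya, zero_smul, add_zero, ite_smul, one_smul, Finset.sum_ite_eq,
        Finset.mem_univ, if_true]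
      rfl
  exact congrArg Multiplicative.toAdd (DFunLike.congr_fun h u)

/-- the failure for genus two -/
theorem tb_two : ∃ f : SG 2 →* TB, Surjective f ∧ ¬ Injective f ∧
    ∀ x : SG 2, IsCurve 2 x → f x ≠ 1 := by
  obtain ⟨f, hF⟩ := exists_hom (g := 2)
    [((⟨0, 0, 1, 0⟩ : TB), (⟨1, 0, 0, 0⟩ : TB)), ((⟨0, -1, 0, 0⟩ : TB), (⟨0, 0, 0, 1⟩ : TB))] rfl
    (by
      unfold cp
      simp only [List.map_cons, List.map_nil, List.prod_cons, List.prod_nil, TB.comm]
      ext
      · simp [TB.mul_a, TB.one_a, sg]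
      · simp [TB.mul_b, TB.one_b, sg]
      · simp [TB.mul_i, TB.one_i]
      · simp [TB.mul_j, TB.one_j])
  have hst : st 2 = [(ga 0, gb 0), (ga 1, gb 1)] := rfl
  rw [hst] at hF
  simp only [List.map_cons, List.map_nil, List.cons.injEq, and_true] at hF
  obtain ⟨h0, h1⟩ := hF
  have fa0 : f (ga 0) = ⟨0, 0, 1, 0⟩ := congrArg Prod.fst h0
  have fb0 : f (gb 0) = ⟨1, 0, 0, 0⟩ := congrArg Prod.snd h0
  have fa1 : f (ga 1) = ⟨0, -1, 0, 0⟩ := congrArg Prod.fst h1
  have fb1 : f (gb 1) = ⟨0, 0, 0, 1⟩ := congrArg Prod.snd h1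
  obtain ⟨d⟩ := exists_dual 2
  have ei : ∀ u, (f u).i = va (d.X 0) u := by
    intro u
    have h := d.expand ((TB.hi).comp f) u
    rw [Fin.sum_univ_two] at h
    have e1 : va ((TB.hi).comp f) (ga 0) = 1 := by
      show (f (ga 0)).i = 1
      rw [fa0]
    have e2 : va ((TB.hi).comp f) (gb 0) = 0 := by
      show (f (gb 0)).i = 0
      rw [fb0]
    have e3 : va ((TB.hi).comp f) (ga 1) = 0 := by
      show (f (ga 1)).i = 0
      rw [fa1]
    have e4 : va ((TB.hi).comp f) (gb 1) = 0 := by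
      show (f (gb 1)).i = 0
      rw [fb1]
    rw [e1, e2, e3, e4] at h
    have h' : (f u).i = _ := h
    rw [h']
    ring
  have ej : ∀ u, (f u).j = va (d.Y 1) u := by
    intro u
    have h := d.expand ((TB.hj).comp f) u
    rw [Fin.sum_univ_two] at h
    have e1 : va ((TB.hj).comp f) (ga 0) = 0 := by
      show (f (ga 0)).j = 0
      rw [fa0]
    have e2 : va ((TB.hj).comp f) (gb 0) = 0 := by
      show (f (gb 0)).j = 0
      rw [fb0]
    have e3 : va ((TB.hj).comp f) (ga 1) = 0 := by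
      show (f (ga 1)).j = 0
      rw [fa1]
    have e4 : va ((TB.hj).comp f) (gb 1) = 1 := by
      show (f (gb 1)).j = 1
      rw [fb1]
    rw [e1, e2, e3, e4] at h
    have h' : (f u).j = _ := h
    rw [h']
    ring
  have ea : ∀ u, ((f u).a : ZMod 2) = (va (d.Y 0) u : ZMod 2) := by
    intro u
    have h := d.expand' ((TB.ha).comp f) u
    rw [Fin.sum_univ_two] at h
    have e1 : Multiplicative.toAdd (((TB.ha).comp f) (ga 0)) = 0 := by
      show ((f (ga 0)).a : ZMod 2) = 0
      rw [fa0]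
      rfl
    have e2 : Multiplicative.toAdd (((TB.ha).comp f) (gb 0)) = 1 := by
      show ((f (gb 0)).a : ZMod 2) = 1
      rw [fb0]
      rfl
    have e3 : Multiplicative.toAdd (((TB.ha).comp f) (ga 1)) = 0 := by
      show ((f (ga 1)).a : ZMod 2) = 0
      rw [fa1]
      rfl
    have e4 : Multiplicative.toAdd (((TB.ha).comp f) (gb 1)) = 0 := by
      show ((f (gb 1)).a : ZMod 2) = 0
      rw [fb1]
      rfl
    rw [e1, e2, e3, e4] at h
    have h' : ((f u).a : ZMod 2) = _ := h
    rw [h', smul_zero, smul_zero, smul_zero, zero_add, add_zero, add_zero, zsmul_eq_mul, mul_one]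
  have eb : ∀ u, ((f u).b : ZMod 2) = (va (d.X 1) u : ZMod 2) := by
    intro u
    have h := d.expand' ((TB.hb).comp f) u
    rw [Fin.sum_univ_two] at h
    have e1 : Multiplicative.toAdd (((TB.hb).comp f) (ga 0)) = 0 := by
      show ((f (ga 0)).b : ZMod 2) = 0
      rw [fa0]
      rfl
    have e2 : Multiplicative.toAdd (((TB.hb).comp f) (gb 0)) = 0 := by
      show ((f (gb 0)).b : ZMod 2) = 0
      rw [fb0]
      rfl
    have e3 : Multiplicative.toAdd (((TB.hb).comp f) (ga 1)) = 1 := by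
      show ((f (ga 1)).b : ZMod 2) = 1
      rw [fa1]
      rfl
    have e4 : Multiplicative.toAdd (((TB.hb).comp f) (gb 1)) = 0 := by
      show ((f (gb 1)).b : ZMod 2) = 0
      rw [fb1]
      rfl
    rw [e1, e2, e3, e4] at h
    have h' : ((f u).b : ZMod 2) = _ := h
    rw [h', smul_zero, smul_zero, smul_zero, zero_add, add_zero, zero_add, zsmul_eq_mul, mul_one]
  refine ⟨f, ?_, ?_, ?_⟩
  · -- surjectivity
    intro p
    have hpa : ∀ n : ℤ, (⟨1, 0, 0, 0⟩ : TB) ^ n = ⟨n, 0, 0, 0⟩ := by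
      let ι : Multiplicative ℤ →* TB :=
        { toFun := fun k => ⟨Multiplicative.toAdd k, 0, 0, 0⟩
          map_one' := rfl
          map_mul' := fun k l => by
            ext
            · rw [TB.mul_a, show sg 0 = 1 from rfl, one_mul]
              rfl
            · rw [TB.mul_b]
              ring
            · rfl
            · rfl }
      intro n
      have h1 : (⟨1, 0, 0, 0⟩ : TB) = ι (Multiplicative.ofAdd 1) := rfl
      rw [h1, ← map_zpow, ← ofAdd_zsmul, smul_eq_mul, mul_one]
      rfl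
    have hpb : ∀ n : ℤ, (⟨0, -1, 0, 0⟩ : TB) ^ n = ⟨0, -n, 0, 0⟩ := by
      let ι : Multiplicative ℤ →* TB :=
        { toFun := fun k => ⟨0, -Multiplicative.toAdd k, 0, 0⟩
          map_one' := rfl
          map_mul' := fun k l => by
            ext
            · rw [TB.mul_a]
              ring
            · rw [TB.mul_b, show sg 0 = 1 from rfl, toAdd_mul]
              ring
            · rfl
            · rfl }
      intro n
      have h1 : (⟨0, -1, 0, 0⟩ : TB) = ι (Multiplicative.ofAdd 1) := rfl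
      rw [h1, ← map_zpow, ← ofAdd_zsmul, smul_eq_mul, mul_one]
      rfl
    have hpi : ∀ n : ℤ, (⟨0, 0, 1, 0⟩ : TB) ^ n = ⟨0, 0, n, 0⟩ := by
      let ι : Multiplicative ℤ →* TB :=
        { toFun := fun k => ⟨0, 0, Multiplicative.toAdd k, 0⟩
          map_one' := rfl
          map_mul' := fun k l => by
            ext
            · rw [TB.mul_a]
              ring
            · rw [TB.mul_b]
              ring
            · rfl
            · rfl }
      intro n
      have h1 : (⟨0, 0, 1, 0⟩ : TB) = ι (Multiplicative.ofAdd 1) := rfl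
      rw [h1, ← map_zpow, ← ofAdd_zsmul, smul_eq_mul, mul_one]
      rfl
    have hpj : ∀ n : ℤ, (⟨0, 0, 0, 1⟩ : TB) ^ n = ⟨0, 0, 0, n⟩ := by
      let ι : Multiplicative ℤ →* TB :=
        { toFun := fun k => ⟨0, 0, 0, Multiplicative.toAdd k⟩
          map_one' := rfl
          map_mul' := fun k l => by
            ext
            · rw [TB.mul_a]
              ring
            · rw [TB.mul_b]
              ring
            · rfl
            · rfl }
      intro n
      have h1 : (⟨0, 0, 0, 1⟩ : TB) = ι (Multiplicative.ofAdd 1) := rfl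
      rw [h1, ← map_zpow, ← ofAdd_zsmul, smul_eq_mul, mul_one]
      rfl
    refine ⟨gb 0 ^ p.a * ga 1 ^ (-p.b) * ga 0 ^ p.i * gb 1 ^ p.j, ?_⟩
    rw [map_mul, map_mul, map_mul, map_zpow, map_zpow, map_zpow, map_zpow, fa0, fb0, fa1, fb1,
      hpa, hpb, hpi, hpj]
    ext
    · simp only [TB.mul_a, TB.mul_j, show sg 0 = 1 from rfl]
      ring
    · simp only [TB.mul_b, TB.mul_j, TB.mul_i, show sg 0 = 1 from rfl]
      ring
    · simp only [TB.mul_i]
      ring
    · simp only [TB.mul_j]
      ring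
  · -- non-injectivity
    intro hinj
    refine comm_ne (g := 2) (le_refl 2) (hinj ?_)
    rw [map_one, map_commutatorElement]
    have e0 : (⟨0, by omega⟩ : Fin 2) = 0 := rfl
    have e1 : (⟨1, by omega⟩ : Fin 2) = 1 := rfl
    rw [e0, e1, fa0, fa1, TB.comm]
    ext
    · simp [TB.one_a]
    · simp [TB.one_b, sg]
    · rfl
    · rfl
  · -- no curve is killed
    intro x hx hc
    have two : (2 : ZMod 2) = 0 := rfl
    rcases hx with ⟨φ, i, rfl⟩ | ⟨φ, k, hk0, hk2, rfl⟩
    · have h1 := d.expand ((d.X i).comp φ.symm.toMonoidHom) (φ (ga i))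
      have e1 : va ((d.X i).comp φ.symm.toMonoidHom) (φ (ga i)) = 1 := by
        show va (d.X i) (φ.symm (φ (ga i))) = 1
        rw [MulEquiv.symm_apply_apply, d.xa, if_pos rfl]
      have k1 : ((va (d.X 0) (φ (ga i)) : ℤ) : ZMod 2) = 0 := by
        rw [← ei, hc, TB.one_i, Int.cast_zero]
      have k2 : ((va (d.X 1) (φ (ga i)) : ℤ) : ZMod 2) = 0 := by
        rw [← eb, hc, TB.one_b, Int.cast_zero]
      have k3 : ((va (d.Y 0) (φ (ga i)) : ℤ) : ZMod 2) = 0 := by
        rw [← ea, hc, TB.one_a, Int.cast_zero]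
      have k4 : ((va (d.Y 1) (φ (ga i)) : ℤ) : ZMod 2) = 0 := by
        rw [← ej, hc, TB.one_j, Int.cast_zero]
      rw [e1, Fin.sum_univ_two] at h1
      have h2 := congrArg (fun z : ℤ => (z : ZMod 2)) h1
      simp only [Int.cast_add, Int.cast_mul, Int.cast_one, k1, k2, k3, k4, mul_zero,
        add_zero] at h2
      exact absurd h2 (by decide)
    · obtain ⟨t, ht, hsum⟩ := sympl d φ
      have hk : k = 1 := by omega
      subst hk
      have h1 : f (φ (sep 2 1)) = ⁅f (φ (ga 0)), f (φ (gb 0))⁆ := by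
        have e : sep 2 1 = ⁅(ga 0 : SG 2), gb 0⁆ := by
          have : sep 2 1 = ⁅(ga 0 : SG 2), gb 0⁆ * 1 := rfl
          rw [this, mul_one]
        rw [e, map_commutatorElement, map_commutatorElement]
      rw [h1] at hc
      have h2 := TB.comm_parity _ _ hc
      have h3 := hsum 0
      rw [Fin.sum_univ_two] at h3
      have h4 := congrArg (fun z : ℤ => (z : ZMod 2)) h3
      simp only [Int.cast_add, Int.cast_mul, Int.cast_sub] at h4
      have q1 : ((mA d φ 0 0 : ℤ) : ZMod 2) = ((f (φ (ga 0))).i : ZMod 2) := by rw [ei]; rfl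
      have q2 : ((mB d φ 0 0 : ℤ) : ZMod 2) = ((f (φ (gb 0))).i : ZMod 2) := by rw [ei]; rfl
      have q3 : ((mC d φ 0 0 : ℤ) : ZMod 2) = ((f (φ (ga 0))).a : ZMod 2) := by rw [ea]; rfl
      have q4 : ((mD d φ 0 0 : ℤ) : ZMod 2) = ((f (φ (gb 0))).a : ZMod 2) := by rw [ea]; rfl
      have q5 : ((mA d φ 1 0 : ℤ) : ZMod 2) = ((f (φ (ga 0))).b : ZMod 2) := by rw [eb]; rfl
      have q6 : ((mB d φ 1 0 : ℤ) : ZMod 2) = ((f (φ (gb 0))).b : ZMod 2) := by rw [eb]; rfl
      have q7 : ((mC d φ 1 0 : ℤ) : ZMod 2) = ((f (φ (ga 0))).j : ZMod 2) := by rw [ej]; rfl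
      have q8 : ((mD d φ 1 0 : ℤ) : ZMod 2) = ((f (φ (gb 0))).j : ZMod 2) := by rw [ej]; rfl
      rw [q1, q2, q3, q4, q5, q6, q7, q8, h2] at h4
      rcases ht with rfl | rfl
      · exact absurd h4 (by decide)
      · exact absurd h4 (by decide)

/-- the property for higher genus -/
theorem tb_three (g : ℕ) (hg : 3 ≤ g) (f : SG g →* TB) :
    ∃ x : SG g, IsCurve g x ∧ x ≠ 1 ∧ f x = 1 := by
  let N : ℕ → Subgroup TB := fun n =>
    if n = 0 then ⊤ else if n = 1 then TB.hj.ker else TB.hj.ker ⊓ TB.hi.ker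
  have hN0 : N 0 = ⊤ := rfl
  have hN1 : N 1 = TB.hj.ker := rfl
  have hN2 : N 2 = TB.hj.ker ⊓ TB.hi.ker := rfl
  refine positive g (by omega) 2 0 (by omega) N hN0 ?_ ?_ (1 : N 2 →* Multiplicative Unit)
    (fun i : Fin 0 => i.elim0) ?_ ?_ f
  · intro i hi x hx y hy
    rcases (show i = 0 ∨ i = 1 by omega) with rfl | rfl
    · rw [hN1] at hy ⊢
      exact (MonoidHom.normal_ker TB.hj).conj_mem y hy x
    · rw [hN2] at hy ⊢
      exact ⟨(MonoidHom.normal_ker TB.hj).conj_mem y hy.1 x,
        (MonoidHom.normal_ker TB.hi).conj_mem y hy.2 x⟩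
  · intro i hi
    rcases (show i = 0 ∨ i = 1 by omega) with rfl | rfl
    · refine ⟨⟨0, 0, 0, 1⟩, Subgroup.mem_top _, fun x _ => ⟨x.j, ?_⟩⟩
      rw [hN1, MonoidHom.mem_ker, map_mul, map_inv, map_zpow]
      have e1 : TB.hj ⟨0, 0, 0, 1⟩ = Multiplicative.ofAdd 1 := rfl
      have e2 : TB.hj x = Multiplicative.ofAdd x.j := rfl
      rw [e1, e2, ← ofAdd_zsmul, smul_eq_mul, mul_one, inv_mul_cancel]
    · refine ⟨⟨0, 0, 1, 0⟩, ?_, fun x hx => ⟨x.i, ?_⟩⟩
      · rw [hN1, MonoidHom.mem_ker]
        rfl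
      · rw [hN1] at hx
        rw [hN2]
        constructor
        · show TB.hj _ = 1
          rw [map_mul, map_inv, map_zpow]
          have e1 : TB.hj ⟨0, 0, 1, 0⟩ = 1 := rfl
          rw [e1, one_zpow, inv_one, one_mul]
          exact hx
        · show TB.hi _ = 1
          rw [map_mul, map_inv, map_zpow]
          have e1 : TB.hi ⟨0, 0, 1, 0⟩ = Multiplicative.ofAdd 1 := rfl
          have e2 : TB.hi x = Multiplicative.ofAdd x.i := rfl
          rw [e1, e2, ← ofAdd_zsmul, smul_eq_mul, mul_one, inv_mul_cancel]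
  · rw [eq_top_iff]
    intro x _
    have : x = 1 := rfl
    rw [this]
    exact Subgroup.one_mem _
  · intro x _ y
    obtain ⟨x, hx⟩ := x
    obtain ⟨y, hy⟩ := y
    have h1 : x.j = 0 := hx.1
    have h2 : x.i = 0 := hx.2
    have h3 : y.j = 0 := hy.1
    have h4 : y.i = 0 := hy.2
    refine Subtype.ext ?_
    show x * y = y * x
    ext
    · rw [TB.mul_a, TB.mul_a, h1, h3, show sg 0 = 1 from rfl]
      ring
    · rw [TB.mul_b, TB.mul_b, h1, h2, h3, h4, show sg 0 = 1 from rfl]
      ring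
    · rw [TB.mul_i, TB.mul_i, add_comm]
    · rw [TB.mul_j, TB.mul_j, add_comm]

end Pool.Agent.Helper4.SLC
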